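import Pool.Agent.Y237.SA.Map

/-!
# The `x`-coordinates of the torsion points are discrete

Helper file. `DiscSet v S`: the set `S` of complex numbers is bounded for the absolute value `v`, and
every complex number has a positive distance to the other elements of `S`. The set of the
`x`-coordinates of the torsion points of an elliptic curve over `ℂ` has this property for every
nonarchimedean absolute value of `ℂ` (`discSet_TX`).
-/

set_option autoImplicit false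
set_option linter.unusedSectionVars false

open WeierstrassCurve

namespace Pool.Agent.Y237.SA

open Pool.Agent.TH954 Pool.Agent.H901R3.MS Pool.Agent.W275.FM

/-- the `x`-coordinates of the torsion points different from the origin -/
def TX {F : Type} [Field F] [DecidableEq F] (a b : F) : Set F :=
  {x | ∃ (y : F) (h : (CV a b).toAffine.Nonsingular x y) (n : ℕ), 0 < n ∧
    n • (Affine.Point.some x y h : Pt a b) = 0}

section

variable {L : Type} [NormedField L] [IsUltrametricDist L] [DecidableEq L] {a b : L}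

lemma si_CV (ha : ‖a‖ ≤ 1) (hb : ‖b‖ ≤ 1) : SI (CV a b) :=
  { h1 := rfl, h2 := rfl, h3 := rfl, ha := ha, hb := hb }

/-- an element of `TX` for a nonzero torsion point -/
lemma mem_TX {F : Type} [Field F] [DecidableEq F] {a b : F} {P : Pt a b} (hP : P ≠ 0) {n : ℕ}
    (hn : 0 < n) (h : n • P = 0) : hz P = 1 ∧ hx P ∈ TX a b := by
  rcases P with _ | ⟨x, y, hxy⟩
  · exact absurd rfl hP
  · exact ⟨rfl, y, hxy, n, hn, h⟩

lemma TX_key (h2 : (2 : L) ≠ 0) (hD : Disc a b) {c : ℝ} (hc : ∀ x ∈ TX a b, ‖x‖ ≤ c)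
    {x1 x2 : L} (hx1 : x1 ∈ TX a b) (hx2 : x2 ∈ TX a b) (hne : x1 ≠ x2) :
    ‖fT a b (x1 * x2) (x1 + x2) 1‖ ≤ c * ‖x1 - x2‖ ^ 2 ∧
    ‖fS a b (x1 * x2) (x1 + x2) 1‖ ≤ c ^ 2 * ‖x1 - x2‖ ^ 2 := by
  obtain ⟨y1, h1, n1, hn1, hP1⟩ := hx1
  obtain ⟨y2, h2', n2, hn2, hP2⟩ := hx2
  set P1 : Pt a b := Affine.Point.some x1 y1 h1 with hP1d
  set P2 : Pt a b := Affine.Point.some x2 y2 h2' with hP2d
  have hx12 : ∀ Q : Pt a b, hx Q = x1 → hx Q ≠ x2 := fun Q h h' => hne (h.symm.trans h')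
  have hneg2 : hx (-P2) = x2 := Pool.Agent.W342.FM.AS.hx_neg hD P2
  have hs : P1 + P2 ≠ 0 := by
    intro h0
    have h3 : P1 = -P2 := eq_neg_of_add_eq_zero_left h0
    exact hx12 P1 rfl (by rw [h3]; exact hneg2)
  have hd : P1 - P2 ≠ 0 := by
    intro h0
    have h3 : P1 = P2 := sub_eq_zero.1 h0
    exact hx12 P1 rfl (by rw [h3]; rfl)
  have ht1 : (n1 * n2) • P1 = 0 := by rw [mul_comm, mul_smul, hP1, smul_zero]
  have ht2 : (n1 * n2) • P2 = 0 := by rw [mul_smul, hP2, smul_zero]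
  have hts : (n1 * n2) • (P1 + P2) = 0 := by rw [smul_add, ht1, ht2, add_zero]
  have htd : (n1 * n2) • (P1 - P2) = 0 := by rw [smul_sub, ht1, ht2, sub_zero]
  obtain ⟨zs, ms⟩ := mem_TX hs (Nat.mul_pos hn1 hn2) hts
  obtain ⟨zd, md⟩ := mem_TX hd (Nat.mul_pos hn1 hn2) htd
  obtain ⟨k, hk, e1, e2, e3⟩ := Pool.Agent.W342.FM.AS.main L h2 a b hD P1 P2
  have hX1 : hx P1 = x1 := rfl
  have hX2 : hx P2 = x2 := rfl
  have hZ1 : hz P1 = 1 := rfl
  have hZ2 : hz P2 = 1 := rfl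
  rw [hX1, hX2, hZ1, hZ2] at e1 e2 e3
  rw [zs, zd] at e2 e3
  simp only [mul_one] at e1 e2 e3
  have hk' : k * (x1 - x2) ^ 2 = 1 := by
    rw [e3, fW]
    ring
  have hcs := hc _ ms
  have hcd := hc _ md
  have hc0 : 0 ≤ c := (norm_nonneg _).trans hcs
  have f1 : fT a b (x1 * x2) (x1 + x2) 1 = (hx (P1 + P2) + hx (P1 - P2)) * (x1 - x2) ^ 2 := by
    rw [e2]
    linear_combination (-(fT a b (x1 * x2) (x1 + x2) 1)) * hk'
  have f2 : fS a b (x1 * x2) (x1 + x2) 1 = (hx (P1 + P2) * hx (P1 - P2)) * (x1 - x2) ^ 2 := by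
    rw [e1]
    linear_combination (-(fS a b (x1 * x2) (x1 + x2) 1)) * hk'
  rw [f1, f2, norm_mul, norm_mul, norm_pow, norm_mul]
  refine ⟨mul_le_mul_of_nonneg_right (uadd hcs hcd) (by positivity), ?_⟩
  rw [sq c]
  exact mul_le_mul_of_nonneg_right (mul_le_mul hcs hcd (norm_nonneg _) hc0) (by positivity)

/-- the two forms have no common zero on the diagonal -/
lemma diag_ne (hD : Disc a b) (z : L) :
    fT a b (z * z) (z + z) 1 ≠ 0 ∨ fS a b (z * z) (z + z) 1 ≠ 0 := by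
  by_contra hcon
  push Not at hcon
  obtain ⟨h1, h2⟩ := hcon
  rw [fT] at h1
  rw [fS] at h2
  have h20 : (2 : L) ≠ 0 := fun h => hD (by rw [h, zero_mul])
  have hf : z ^ 3 + a * z + b = 0 := by
    have h4 : (2 * 2 : L) * (z ^ 3 + a * z + b) = 0 := by linear_combination h1
    exact (mul_eq_zero.1 h4).resolve_left (mul_ne_zero h20 h20)
  have h3 : (3 * z ^ 2 + a) ^ 2 = 0 := by linear_combination h2 + 8 * z * hf
  have h5 : 3 * z ^ 2 + a = 0 := pow_eq_zero_iff (two_ne_zero) |>.1 h3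
  apply hD
  have ha : a = -3 * z ^ 2 := by linear_combination h5
  have hb : b = 2 * z ^ 3 := by rw [ha] at hf; linear_combination hf
  rw [ha, hb]
  ring

/-- **The torsion points are separated.** -/
theorem sep (h2 : (2 : L) ≠ 0) (hD : Disc a b) {c : ℝ} (hc : ∀ x ∈ TX a b, ‖x‖ ≤ c) (z : L) :
    ∃ ε : ℝ, 0 < ε ∧ ∀ x1 ∈ TX a b, ∀ x2 ∈ TX a b, ‖x1 - z‖ < ε → ‖x2 - z‖ < ε → x1 = x2 := by
  have hmain : ∀ (f : L → L → L) (C : ℝ), Continuous (fun p : L × L => f p.1 p.2) →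
      f z z ≠ 0 → ∃ ε : ℝ, 0 < ε ∧ ∀ x1 x2 : L, ‖x1 - z‖ < ε → ‖x2 - z‖ < ε →
        C * ‖x1 - x2‖ ^ 2 < ‖f x1 x2‖ := by
    intro f C hf hz
    let g : L × L → ℝ := fun p => ‖f p.1 p.2‖ - C * ‖p.1 - p.2‖ ^ 2
    have hg : Continuous g := by
      refine (hf.norm).sub ?_
      exact continuous_const.mul ((continuous_fst.sub continuous_snd).norm.pow 2)
    have hg0 : 0 < g (z, z) := by
      change 0 < ‖f z z‖ - C * ‖z - z‖ ^ 2
      rw [sub_self, norm_zero]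
      have := norm_pos_iff.2 hz
      simpa using this
    have h1 : ∀ᶠ p in nhds (z, z), 0 < g p := hg.continuousAt.eventually (lt_mem_nhds hg0)
    obtain ⟨ε, hε, h3⟩ := Metric.eventually_nhds_iff.1 h1
    refine ⟨ε, hε, fun x1 x2 hx1 hx2 => ?_⟩
    have h4 : dist (x1, x2) (z, z) < ε := by
      rw [Prod.dist_eq]
      exact max_lt (by rw [dist_eq_norm]; exact hx1) (by rw [dist_eq_norm]; exact hx2)
    have h5 := h3 h4
    exact sub_pos.1 h5
  rcases diag_ne hD z with h | h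
  · obtain ⟨ε, hε, h3⟩ := hmain (fun x1 x2 => fT a b (x1 * x2) (x1 + x2) 1) c
      (by unfold fT; fun_prop) h
    refine ⟨ε, hε, fun x1 hx1 x2 hx2 e1 e2 => ?_⟩
    by_contra hne
    exact absurd (TX_key h2 hD hc hx1 hx2 hne).1 (not_le.2 (h3 x1 x2 e1 e2))
  · obtain ⟨ε, hε, h3⟩ := hmain (fun x1 x2 => fS a b (x1 * x2) (x1 + x2) 1) (c ^ 2)
      (by unfold fS; fun_prop) h
    refine ⟨ε, hε, fun x1 hx1 x2 hx2 e1 e2 => ?_⟩
    by_contra hne
    exact absurd (TX_key h2 hD hc hx1 hx2 hne).2 (not_le.2 (h3 x1 x2 e1 e2))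

theorem sep' (h2 : (2 : L) ≠ 0) (hD : Disc a b) {c : ℝ} (hc : ∀ x ∈ TX a b, ‖x‖ ≤ c) (z : L) :
    ∃ δ : ℝ, 0 < δ ∧ ∀ x ∈ TX a b, x ≠ z → δ ≤ ‖x - z‖ := by
  obtain ⟨ε, hε, h⟩ := sep h2 hD hc z
  by_cases hex : ∃ x0 ∈ TX a b, x0 ≠ z ∧ ‖x0 - z‖ < ε
  · obtain ⟨x0, hx0, hx0z, hx0e⟩ := hex
    refine ⟨‖x0 - z‖, norm_pos_iff.2 (sub_ne_zero.2 hx0z), fun x hx hxz => ?_⟩
    by_contra hcon
    rw [not_le] at hcon
    have := h x hx x0 hx0 (hcon.trans hx0e) hx0e
    rw [this] at hcon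
    exact lt_irrefl _ hcon
  · refine ⟨ε, hε, fun x hx hxz => ?_⟩
    by_contra hcon
    exact hex ⟨x, hx, hxz, not_le.1 hcon⟩

end

/-- `S` is bounded and discrete for the absolute value `v`. -/
def DiscSet (v : AbsoluteValue ℂ ℝ) (S : Set ℂ) : Prop :=
  (∃ C : ℝ, ∀ x ∈ S, v x ≤ C) ∧ ∀ z : ℂ, ∃ δ : ℝ, 0 < δ ∧ ∀ x ∈ S, x ≠ z → δ ≤ v (x - z)

/-- the values at the primes -/
lemma exists_prime_bound (v : AbsoluteValue ℂ ℝ) (hv : IsNonarchimedean v) :
    ∃ c : ℝ, 1 ≤ c ∧ ∀ q : ℕ, q.Prime → 1 ≤ c * v (q : ℂ) ^ 2 := by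
  have hle : ∀ n : ℤ, v (n : ℂ) ≤ 1 := by
    intro n
    have hnat : ∀ n : ℕ, v (n : ℂ) ≤ 1 := by
      intro n
      induction n with
      | zero => simp
      | succ n ih =>
        push_cast
        exact (hv _ _).trans (max_le ih (by rw [map_one]))
    rcases Int.eq_nat_or_neg n with ⟨m, rfl | rfl⟩
    · exact_mod_cast hnat m
    · push_cast
      rw [v.map_neg]
      exact hnat m
  by_cases hex : ∃ p : ℕ, p.Prime ∧ v (p : ℂ) < 1
  · obtain ⟨p, hp, hvp⟩ := hex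
    have hp0 : 0 < v (p : ℂ) := v.pos (by exact_mod_cast hp.ne_zero)
    refine ⟨(v (p : ℂ) ^ 2)⁻¹, ?_, fun q hq => ?_⟩
    · rw [one_le_inv₀ (by positivity)]
      exact pow_le_one₀ hp0.le hvp.le
    · by_cases hqp : q = p
      · rw [hqp, inv_mul_cancel₀ (by positivity)]
      · have hq1 : v (q : ℂ) = 1 := by
          refine le_antisymm (by exact_mod_cast hle q) ?_
          by_contra hcon
          rw [not_le] at hcon
          have hcop : IsCoprime (p : ℤ) (q : ℤ) := by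
            rw [Nat.isCoprime_iff_coprime]
            exact (Nat.coprime_primes hp hq).2 (Ne.symm hqp)
          obtain ⟨s, t, hst⟩ := hcop
          have h1 : (s : ℂ) * (p : ℂ) + t * (q : ℂ) = 1 := by exact_mod_cast hst
          have h2 : v ((s : ℂ) * (p : ℂ)) < 1 := by
            rw [map_mul]
            exact lt_of_le_of_lt (mul_le_of_le_one_left hp0.le (hle s)) hvp
          have h3 : v ((t : ℂ) * (q : ℂ)) < 1 := by
            rw [map_mul]
            exact lt_of_le_of_lt (mul_le_of_le_one_left (v.nonneg _) (hle t)) hcon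
          have h4 := hv ((s : ℂ) * (p : ℂ)) ((t : ℂ) * (q : ℂ))
          rw [h1, map_one] at h4
          exact absurd (max_lt h2 h3) (not_lt.2 h4)
        rw [hq1, one_pow, mul_one, one_le_inv₀ (by positivity)]
        exact pow_le_one₀ hp0.le hvp.le
  · push Not at hex
    refine ⟨1, le_rfl, fun q hq => ?_⟩
    rw [one_mul]
    exact one_le_pow₀ (hex q hq)

section transport

/-- scaling and change of the field -/
lemma map_TX {F L : Type} [Field F] [Field L] [iF : DecidableEq F] [iL : DecidableEq L]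
    (φ : F →+* L) {c : L}
    (hc : c ≠ 0) {A B : F} {A' B' : L} (hA : A' = c ^ 4 * φ A) (hB : B' = c ^ 6 * φ B)
    (hD : Disc A' B') {x : F} (hx : x ∈ TX A B) : φ x * c ^ 2 ∈ TX A' B' := by
  have h2 : (2 : L) ≠ 0 := fun h => hD (by rw [h, zero_mul])
  have e1 : iF = fun a b => Classical.propDecidable (a = b) := Subsingleton.elim _ _
  have e2 : iL = fun a b => Classical.propDecidable (a = b) := Subsingleton.elim _ _
  subst e1
  subst e2
  classical
  obtain ⟨y, h, n, hn, hP⟩ := hx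
  refine ⟨φ y * c ^ 3, map_ns φ hA hB h2 hD h, n, hn, ?_⟩
  have h3 := congrArg (gmap φ hc hA hB h2 hD) hP
  rw [map_nsmul, map_zero] at h3
  exact h3

/-- **The `x`-coordinates of the torsion points are discrete.** -/
theorem discSet_TX (v : AbsoluteValue ℂ ℝ) (hv : IsNonarchimedean v) (a b : ℂ)
    (hD : 4 * a ^ 3 + 27 * b ^ 2 ≠ 0) : DiscSet v (TX a b) := by
  classical
  -- a scaling factor
  obtain ⟨c0, hc0, hca, hcb⟩ : ∃ c0 : ℂ, c0 ≠ 0 ∧ v (c0 ^ 4 * a) ≤ 1 ∧ v (c0 ^ 6 * b) ≤ 1 := by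
    set M : ℝ := max (v a) (v b) with hM
    by_cases hM1 : M ≤ 1
    · refine ⟨1, one_ne_zero, ?_, ?_⟩
      · rw [one_pow, one_mul]
        exact (le_max_left _ _).trans hM1
      · rw [one_pow, one_mul]
        exact (le_max_right _ _).trans hM1
    · rw [not_le] at hM1
      have key : ∀ w : ℂ, v w = M → ∃ c0 : ℂ, c0 ≠ 0 ∧ v (c0 ^ 4 * a) ≤ 1 ∧
          v (c0 ^ 6 * b) ≤ 1 := by
        intro w hw
        have hw0 : w ≠ 0 := by
          rintro rfl
          rw [map_zero] at hw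
          linarith
        have hM0 : 0 < M := by linarith
        refine ⟨w⁻¹, inv_ne_zero hw0, ?_, ?_⟩
        · rw [map_mul, map_pow, map_inv₀, hw]
          have h1 : v a ≤ M := le_max_left _ _
          calc M⁻¹ ^ 4 * v a ≤ M⁻¹ ^ 4 * M := by gcongr
            _ = M⁻¹ ^ 3 * (M⁻¹ * M) := by ring
            _ = M⁻¹ ^ 3 := by rw [inv_mul_cancel₀ hM0.ne', mul_one]
            _ ≤ 1 := pow_le_one₀ (by positivity) (inv_le_one_of_one_le₀ hM1.le)
        · rw [map_mul, map_pow, map_inv₀, hw]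
          have h1 : v b ≤ M := le_max_right _ _
          calc M⁻¹ ^ 6 * v b ≤ M⁻¹ ^ 6 * M := by gcongr
            _ = M⁻¹ ^ 5 * (M⁻¹ * M) := by ring
            _ = M⁻¹ ^ 5 := by rw [inv_mul_cancel₀ hM0.ne', mul_one]
            _ ≤ 1 := pow_le_one₀ (by positivity) (inv_le_one_of_one_le₀ hM1.le)
      rcases max_choice (v a) (v b) with h | h
      · exact key a (by rw [hM, h])
      · exact key b (by rw [hM, h])
  let L := WithAbs v
  let φ : ℂ →+* L := (WithAbs.equiv v).symm.toRingHom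
  have hφn : ∀ z : ℂ, ‖φ z‖ = v z := fun z => rfl
  have hφs : ∀ z : L, ∃ w : ℂ, φ w = z := fun z => ⟨WithAbs.equiv v z, (WithAbs.equiv v).symm_apply_apply z⟩
  have hul : IsUltrametricDist L := IsUltrametricDist.isUltrametricDist_of_isNonarchimedean_norm
    (by
      intro x y
      obtain ⟨x', rfl⟩ := hφs x
      obtain ⟨y', rfl⟩ := hφs y
      rw [← map_add, hφn, hφn, hφn]
      exact hv x' y')
  set c : L := φ c0 with hcd
  have hc : c ≠ 0 := by rwa [hcd, Ne, map_eq_zero]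
  have h2 : (2 : L) ≠ 0 := by
    have : (2 : L) = φ 2 := (map_ofNat φ 2).symm
    rw [this, Ne, map_eq_zero]
    norm_num
  set a' : L := c ^ 4 * φ a with ha'
  set b' : L := c ^ 6 * φ b with hb'
  have hD' : Disc a' b' := by
    rw [Disc, ha', hb', hcd]
    have : (2 : L) * (4 * (φ c0 ^ 4 * φ a) ^ 3 + 27 * (φ c0 ^ 6 * φ b) ^ 2) =
        φ (2 * c0 ^ 12 * (4 * a ^ 3 + 27 * b ^ 2)) := by
      simp only [map_mul, map_add, map_pow, map_ofNat]
      ring
    rw [this, Ne, map_eq_zero]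
    exact mul_ne_zero (mul_ne_zero two_ne_zero (pow_ne_zero _ hc0)) hD
  have han : ‖a'‖ ≤ 1 := by
    rw [ha', hcd, ← map_pow, ← map_mul, hφn]
    exact hca
  have hbn : ‖b'‖ ≤ 1 := by
    rw [hb', hcd, ← map_pow, ← map_mul, hφn]
    exact hcb
  obtain ⟨C, hC1, hC⟩ := exists_prime_bound v hv
  have hbd : ∀ x ∈ TX a' b', ‖x‖ ≤ C := by
    rintro x ⟨y, h, n, hn, hP⟩
    refine torsion_le (si_CV han hbn) h2 hC1 (fun q hq => ?_) h hn hP
    have : (q : L) = φ (q : ℂ) := (map_natCast φ q).symm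
    rw [this, hφn]
    exact hC q hq
  have hcn : 0 < ‖c‖ := norm_pos_iff.2 hc
  refine ⟨⟨C / ‖c‖ ^ 2, fun x hx => ?_⟩, fun z => ?_⟩
  · have h3 := hbd _ (map_TX φ hc ha' hb' hD' hx)
    rw [norm_mul, norm_pow, hφn] at h3
    exact (le_div_iff₀ (by positivity)).2 h3
  · obtain ⟨δ, hδ, h4⟩ := sep' h2 hD' hbd (φ z * c ^ 2)
    refine ⟨δ / ‖c‖ ^ 2, by positivity, fun x hx hxz => ?_⟩
    have h5 := h4 _ (map_TX φ hc ha' hb' hD' hx) (fun h => hxz (φ.injective
      (mul_right_cancel₀ (pow_ne_zero 2 hc) h)))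
    rw [← sub_mul, ← map_sub, norm_mul, norm_pow, hφn] at h5
    exact (div_le_iff₀ (by positivity)).2 h5

end transport

end Pool.Agent.Y237.SA
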