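import Pool.Agent.TH526.ZT.E

/-!
# Tropical relations with bounded errors, uniformly in families

Helper file. `core` is the main argument of `TH526.ZT.A` (for one variety), with the polynomials
replaced by finite sets of monomials and a bound for the errors, so that it applies to infinite
families of varieties with uniformly bounded coefficients. `crit` is the resulting criterion.
-/

set_option autoImplicit false

namespace Pool.Agent.Y237.SA

open MvPolynomial Pool.Agent.H173R3.ZT Pool.Agent.TH526.ZT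
open Pool.Agent.Results.MP_b7926e_nt.NoAtypical (coset idealOf dim mem_idealOf)

variable {n : ℕ}

/-- **Main argument.** If a translate of a variety of dimension `d` has a point on a coset of
codimension at least `d + 1`, then the vectors of the translation at `t` of the places are near to
a hyperplane. -/
theorem core (d : ℕ) (S : {J : Finset (Fin n) // J.card = d + 1} → Finset (Fin n →₀ ℕ))
    (hfJ : ∀ J, ∀ α ∈ S J, ∀ j, j ∉ J.1 → α j = 0)
    (N t : ℕ) (hN : (Fintype.piFinset fun J => S J ×ˢ S J).card * t < N)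
    (v : Fin N → AbsoluteValue ℂ ℝ) (B ε : ℝ) (hB : 0 ≤ B) (hε : 0 ≤ ε) :
    ∃ B' : ℝ, 0 ≤ B' ∧ ∀ x g η : Fin n → ℂ, (∀ j, x j ≠ 0) → (∀ j, g j ≠ 0) → (∀ j, η j ≠ 0) →
      (∀ i J, ∃ α ∈ S J, ∃ β ∈ S J, α ≠ β ∧
        |∑ j, ((iv α - iv β) j : ℝ) * Real.log (v i (x j))| ≤ ε) →
      (∀ i j, |Real.log (v i (η j))| ≤ B) →
      ∀ Λ : Submodule ℤ (Fin n → ℤ), d + 1 ≤ Module.finrank ℤ Λ →
        (∀ a ∈ Λ, ∀ i, v i (chr (fun j => g j * x j) a) = v i (chr η a)) →
        ∃ T : Finset (Fin N), T.card = t ∧ ∃ φ : Fin n → ℝ, ‖φ‖ = 1 ∧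
          ∀ i ∈ T, |∑ j, φ j * Real.log (v i (g j))| ≤ B' := by
  classical
  let δ : ({J : Finset (Fin n) // J.card = d + 1} → (Fin n →₀ ℕ) × (Fin n →₀ ℕ)) →
      {J : Finset (Fin n) // J.card = d + 1} → Fin n → ℝ := fun s J j =>
        (((iv (s J).1 - iv (s J).2) j : ℤ) : ℝ)
  choose C hC0 hC using fun s => exists_bdd_coeff (δ s)
  set PF := Fintype.piFinset fun J => S J ×ˢ S J with hPF
  let E : ℝ := ∑ _J : {J : Finset (Fin n) // J.card = d + 1}, ε
  have hE0 : 0 ≤ E := Finset.sum_nonneg fun J _ => hε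
  refine ⟨n * B + (∑ s ∈ PF, C s) * E, by
    have := Finset.sum_nonneg (fun s (_ : s ∈ PF) => hC0 s)
    positivity, ?_⟩
  intro x g η hx hg hη hfx hηB Λ hrank hΛ
  -- tropical relations
  have h1 : ∀ i : Fin N, ∀ J : {J : Finset (Fin n) // J.card = d + 1},
      ∃ p : (Fin n →₀ ℕ) × (Fin n →₀ ℕ),
        (p ∈ S J ×ˢ S J ∧ p.1 ≠ p.2 ∧
          |∑ j, ((iv p.1 - iv p.2) j : ℝ) * Real.log (v i (x j))| ≤ ε) := by
    intro i J
    obtain ⟨α, hα, β, hβ, h1, h2⟩ := hfx i J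
    exact ⟨(α, β), Finset.mk_mem_product hα hβ, h1, h2⟩
  choose p hp using h1
  obtain ⟨s, hs, hcard⟩ := Finset.exists_lt_card_fiber_of_mul_lt_card_of_maps_to
    (s := (Finset.univ : Finset (Fin N)))
    (t := PF) (f := p) (n := t)
    (fun i _ => Fintype.mem_piFinset.2 fun J => (hp i J).1)
    (by rw [Finset.card_univ, Fintype.card_fin]; exact hN)
  set I := (Finset.univ : Finset (Fin N)).filter fun i => p i = s with hI
  have hIK : ∀ i ∈ I, p i = s := fun i hi => (Finset.mem_filter.1 hi).2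
  have hIne : I.Nonempty := Finset.card_pos.1 (by omega)
  set D : Submodule ℤ (Fin n → ℤ) := Submodule.span ℤ (Set.range fun J => iv (s J).1 - iv (s J).2)
    with hD
  obtain ⟨i₀, hi₀⟩ := hIne
  have hD2 : ∀ J : Finset (Fin n), J.card = d + 1 →
      ∃ χ ∈ D, χ ≠ 0 ∧ ∀ j, j ∉ J → χ j = 0 := by
    intro J hJ
    have h2 := hp i₀ ⟨J, hJ⟩
    rw [hIK i₀ hi₀] at h2
    obtain ⟨h3, h4, -⟩ := h2
    rw [Finset.mem_product] at h3
    refine ⟨iv (s ⟨J, hJ⟩).1 - iv (s ⟨J, hJ⟩).2, Submodule.subset_span ⟨⟨J, hJ⟩, rfl⟩, ?_, ?_⟩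
    · intro h5
      apply h4
      ext j
      have h6 := congrFun h5 j
      simp only [iv, Pi.sub_apply, Pi.zero_apply] at h6
      omega
    · intro j hj
      have h5 := hfJ ⟨J, hJ⟩ _ h3.1 j hj
      have h6 := hfJ ⟨J, hJ⟩ _ h3.2 j hj
      simp [iv, h5, h6]
  obtain ⟨χ, hχΛ, hχD, hχ0⟩ := exists_mem_inf D Λ hD2 hrank
  -- the real vector
  let ψ : Fin n → ℝ := fun j => (χ j : ℝ)
  have hψ0 : ψ ≠ 0 := by
    intro h
    apply hχ0
    funext j
    have h' : (χ j : ℝ) = 0 := congrFun h j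
    exact_mod_cast h'
  have hψn : ‖ψ‖ ≠ 0 := norm_ne_zero_iff.2 hψ0
  have hψD : ψ ∈ Submodule.span ℝ (Set.range (δ s)) := by
    have h2 : ∀ χ' ∈ D, (fun j => (χ' j : ℝ)) ∈ Submodule.span ℝ (Set.range (δ s)) := by
      intro χ' hχ'
      rw [hD] at hχ'
      induction hχ' using Submodule.span_induction with
      | mem y hy =>
        obtain ⟨J, rfl⟩ := hy
        exact Submodule.subset_span ⟨J, rfl⟩
      | zero =>
        have : (fun j : Fin n => (((0 : Fin n → ℤ) j : ℤ) : ℝ)) = 0 := by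
          funext j
          simp
        rw [this]
        exact Submodule.zero_mem _
      | add y z _ _ hy hz =>
        have : (fun j : Fin n => (((y + z : Fin n → ℤ) j : ℤ) : ℝ)) =
            (fun j => (y j : ℝ)) + fun j => (z j : ℝ) := by
          funext j
          simp
        rw [this]
        exact Submodule.add_mem _ hy hz
      | smul a y _ hy =>
        have : (fun j : Fin n => (((a • y : Fin n → ℤ) j : ℤ) : ℝ)) =
            (a : ℝ) • fun j => (y j : ℝ) := by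
          funext j
          simp
        rw [this]
        exact Submodule.smul_mem _ _ hy
    exact h2 χ hχD
  obtain ⟨c, hc1, hc2⟩ := hC s ψ hψD
  obtain ⟨T, hTI, hTc⟩ := Finset.exists_subset_card_eq hcard.le
  refine ⟨T, hTc, ‖ψ‖⁻¹ • ψ, ?_, ?_⟩
  · rw [norm_smul, norm_inv, norm_norm, inv_mul_cancel₀ hψn]
  intro i hi
  have hiI := hTI hi
  have hgx : ∀ j, g j * x j ≠ 0 := fun j => mul_ne_zero (hg j) (hx j)
  -- the relation from `Λ`
  have h2 : ∑ j, ψ j * Real.log (v i (g j)) =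
      ∑ j, ψ j * Real.log (v i (η j)) - ∑ j, ψ j * Real.log (v i (x j)) := by
    have h3 := congrArg Real.log (hΛ χ hχΛ i)
    rw [log_chr (v i) hgx, log_chr (v i) hη] at h3
    have h4 : ∑ j, (χ j : ℝ) * Real.log (v i (g j * x j)) =
        ∑ j, (χ j : ℝ) * Real.log (v i (g j)) + ∑ j, (χ j : ℝ) * Real.log (v i (x j)) := by
      rw [← Finset.sum_add_distrib]
      refine Finset.sum_congr rfl fun j _ => ?_
      rw [map_mul, Real.log_mul (by simpa using hg j) (by simpa using hx j)]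
      ring
    rw [h4] at h3
    change ∑ j, (χ j : ℝ) * Real.log (v i (g j)) = ∑ j, (χ j : ℝ) * Real.log (v i (η j)) -
      ∑ j, (χ j : ℝ) * Real.log (v i (x j))
    linarith
  have h3 : |∑ j, ψ j * Real.log (v i (η j))| ≤ n * B * ‖ψ‖ := by
    calc |∑ j, ψ j * Real.log (v i (η j))| ≤ ∑ j, |ψ j * Real.log (v i (η j))| :=
          Finset.abs_sum_le_sum_abs _ _
      _ ≤ ∑ _j : Fin n, ‖ψ‖ * B := by
          refine Finset.sum_le_sum fun j _ => ?_
          rw [abs_mul]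
          exact mul_le_mul (norm_le_pi_norm ψ j) (hηB i j) (abs_nonneg _) (norm_nonneg _)
      _ = n * B * ‖ψ‖ := by
          rw [Finset.sum_const, Finset.card_univ, Fintype.card_fin, nsmul_eq_mul]
          ring
  have h4 : ∑ j, ψ j * Real.log (v i (x j)) =
      ∑ J, c J * ∑ j, ((iv (s J).1 - iv (s J).2) j : ℝ) * Real.log (v i (x j)) := by
    have h5 : ∀ j, ψ j = ∑ J, c J * (((iv (s J).1 - iv (s J).2) j : ℤ) : ℝ) := by
      intro j
      have h6 := congrFun hc1 j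
      rw [Finset.sum_apply] at h6
      simpa [δ] using h6
    simp only [h5, Finset.sum_mul, Finset.mul_sum]
    rw [Finset.sum_comm]
    refine Finset.sum_congr rfl fun J _ => Finset.sum_congr rfl fun j _ => ?_
    ring
  have h5 : |∑ j, ψ j * Real.log (v i (x j))| ≤ C s * ‖ψ‖ * E := by
    rw [h4]
    calc |∑ J, c J * ∑ j, ((iv (s J).1 - iv (s J).2) j : ℝ) * Real.log (v i (x j))|
        ≤ ∑ J, |c J * ∑ j, ((iv (s J).1 - iv (s J).2) j : ℝ) * Real.log (v i (x j))| :=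
          Finset.abs_sum_le_sum_abs _ _
      _ ≤ ∑ _J : {J : Finset (Fin n) // J.card = d + 1}, (C s * ‖ψ‖) * ε := by
          refine Finset.sum_le_sum fun J _ => ?_
          rw [abs_mul]
          have h6 := (hp i J).2.2
          rw [hIK i hiI] at h6
          exact mul_le_mul (hc2 J) h6 (abs_nonneg _) (mul_nonneg (hC0 s) (norm_nonneg _))
      _ = (C s * ‖ψ‖) * E := by rw [Finset.mul_sum]
  have hCs : C s ≤ ∑ s ∈ PF, C s := Finset.single_le_sum (f := C) (fun s _ => hC0 s) hs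
  have h6 : |∑ j, ψ j * Real.log (v i (g j))| ≤ (n * B + (∑ s ∈ PF, C s) * E) * ‖ψ‖ := by
    rw [h2]
    calc |∑ j, ψ j * Real.log (v i (η j)) - ∑ j, ψ j * Real.log (v i (x j))|
        ≤ |∑ j, ψ j * Real.log (v i (η j))| + |∑ j, ψ j * Real.log (v i (x j))| := abs_sub _ _
      _ ≤ n * B * ‖ψ‖ + C s * ‖ψ‖ * E := add_le_add h3 h5
      _ = (n * B + C s * E) * ‖ψ‖ := by ring
      _ ≤ (n * B + (∑ s ∈ PF, C s) * E) * ‖ψ‖ := by gcongr
  have h7 : ∑ j, (‖ψ‖⁻¹ • ψ) j * Real.log (v i (g j)) =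
      ‖ψ‖⁻¹ * ∑ j, ψ j * Real.log (v i (g j)) := by
    rw [Finset.mul_sum]
    refine Finset.sum_congr rfl fun j _ => ?_
    rw [Pi.smul_apply, smul_eq_mul]
    ring
  rw [h7, abs_mul, abs_of_nonneg (inv_nonneg.2 (norm_nonneg _))]
  rw [inv_mul_le_iff₀ (lt_of_le_of_ne (norm_nonneg _) (Ne.symm hψn))]
  calc |∑ j, ψ j * Real.log (v i (g j))| ≤ (n * B + (∑ s ∈ PF, C s) * E) * ‖ψ‖ := h6
    _ = ‖ψ‖ * (n * B + (∑ s ∈ PF, C s) * E) := by ring


/-- **The criterion for families.** -/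
theorem crit (d : ℕ) (S : {J : Finset (Fin n) // J.card = d + 1} → Finset (Fin n →₀ ℕ))
    (hfJ : ∀ J, ∀ α ∈ S J, ∀ j, j ∉ J.1 → α j = 0)
    (N t : ℕ) (hN : (Fintype.piFinset fun J => S J ×ˢ S J).card * t < N)
    (v : Fin N → AbsoluteValue ℂ ℝ) (B ε : ℝ) :
    ∃ B' : ℝ, 0 ≤ B' ∧ ∀ f : {J : Finset (Fin n) // J.card = d + 1} → MvPolynomial (Fin n) ℂ,
      (∀ J, f J ≠ 0) → (∀ J, (f J).support ⊆ S J) → (∀ i J, err (v i) (f J) ≤ ε) →
      ∀ g : Fin n → ℂ, (∀ j, g j ≠ 0) →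
        ∀ (M : Submodule ℤ (Fin n → ℤ)) (η : Fin n → ℂ), (∀ j, η j ≠ 0) →
          (∀ i j, |Real.log (v i (η j))| ≤ B) → ∀ A ⊆ coset M η,
            (∀ J, ∀ y ∈ A, eval (fun j => (g j)⁻¹ * y j) (f J) = 0) →
            (idealOf A).IsPrime → (d : Cardinal) < dim A + (Module.finrank ℤ M : Cardinal) →
            ∃ T : Finset (Fin N), T.card = t ∧ ∃ φ : Fin n → ℝ, ‖φ‖ = 1 ∧
              ∀ i ∈ T, |∑ j, φ j * Real.log (v i (g j))| ≤ B' := by
  classical
  obtain ⟨B', hB', hmain⟩ := core d S hfJ N t hN v (max B 0) (max (2 * ε) 0) (le_max_right _ _)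
    (le_max_right _ _)
  refine ⟨B', hB', fun f hf0 hfS hfε g hg M η hη hηB A hAT hAf hA hdim => ?_⟩
  obtain ⟨y, hy0, hyA, Λ, hΛr, hΛ⟩ := exists_special A hA M η hη hAT
  set x : Fin n → ℂ := fun j => (g j)⁻¹ * y j with hx
  have hx0 : ∀ j, x j ≠ 0 := fun j => mul_ne_zero (inv_ne_zero (hg j)) (hy0 j)
  have hfx : ∀ J, eval x (f J) = 0 := by
    intro J
    have h1 : scl (fun j => (g j)⁻¹) (f J) ∈ idealOf A := by
      rw [mem_idealOf]
      intro w hw
      rw [eval_scl]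
      exact hAf J w hw
    have h4 := hyA _ h1
    rwa [eval_scl] at h4
  have hgx : (fun j => g j * x j) = y := by
    funext j
    rw [hx]
    exact mul_inv_cancel_left₀ (hg j) _
  refine hmain x g η hx0 hg hη (fun i J => ?_)
    (fun i j => (hηB i j).trans (le_max_left _ _)) Λ ?_ ?_
  · obtain ⟨α, hα, β, hβ, h1, h2⟩ := exists_pair_real (v i) x hx0 (f J) (hf0 J) (hfx J)
    refine ⟨α, hfS J hα, β, hfS J hβ, h1, h2.trans ?_⟩
    exact (mul_le_mul_of_nonneg_left (hfε i J) (by norm_num)).trans (le_max_left _ _)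
  · have h1 : (d : Cardinal) < (Module.finrank ℤ Λ : Cardinal) := hdim.trans_le hΛr
    have h2 : d < Module.finrank ℤ Λ := by exact_mod_cast h1
    omega
  · intro a ha i
    rw [hgx]
    obtain ⟨m, hm, h1⟩ := hΛ a ha
    have h2 := congrArg (v i) h1
    rw [map_pow, map_one, map_div₀] at h2
    have h3 : v i (chr y a) / v i (chr η a) = 1 :=
      (pow_eq_one_iff_of_nonneg (div_nonneg ((v i).nonneg _) ((v i).nonneg _)) hm.ne').1 h2
    exact (div_eq_one_iff_eq ((v i).ne_zero (chr_ne_zero hη a))).1 h3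

end Pool.Agent.Y237.SA
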