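import Pool.Agent.Y237.SA.Main

/-!
# Counting the exceptional translates

Helper file.
-/

set_option autoImplicit false

namespace Pool.Agent.Y237.SA

open MvPolynomial WeierstrassCurve Pool.Agent.H901R3.MS
open Pool.Agent.H173R3.ZT Pool.Agent.TH526.ZT
open Pool.Agent.Results.MP_b7926e_nt.NoAtypical (coset idealOf dim mem_idealOf)

variable {a b : ℂ} {k : ℕ}

/-- The general case, with scaling factors `s_i` for the places. -/
theorem general (hD : 4 * a ^ 3 + 27 * b ^ 2 ≠ 0) (Q : Fin k → Pt a b)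
    (hQ : ∀ i, Q i ≠ 0 → ∀ n : ℕ, 0 < n → n • Q i ≠ 0) (m : ℕ)
    (V : Set (Pt a b × (Fin k → ℂ))) (hV : DimLE m V)
    (hF : ∀ P : Pt a b, (∃ n : ℕ, 0 < n ∧ n • P = 0) → FibLT m V P) :
    ∃ K : ℕ, ∀ N t : ℕ, K * t < N → ∀ v : Fin N → AbsoluteValue ℂ ℝ,
      (∀ i, IsNonarchimedean (v i)) →
      ∀ s : Fin N → ℝ, (∀ i, s i ≠ 0) → ∀ B : ℝ, ∃ c : ℕ,
        ∀ R : ℕ, 1 ≤ R → ∃ S : Finset (Fin N → Fin k → ℤ),
          S.card * (2 * R + 1) ^ t ≤ c * (2 * R + 1) ^ (k * N + k - 1) ∧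
          ∀ e : Fin N → Fin k → ℤ, (∀ i j, |e i j| ≤ R) → e ∉ S →
            ∀ g : Fin k → ℂ, (∀ j, g j ≠ 0) →
              (∀ i j, |Real.log (v i (g j)) - s i * e i j| ≤ B) →
                NoAtW Q m v B (trans g V) := by
  obtain ⟨K, h⟩ := main_crit hD Q hQ m V hV hF
  refine ⟨K, fun N t hN v hv s hs B => ?_⟩
  obtain ⟨B', hB', hmain⟩ := h N t hN v hv B
  -- a lower bound for the scaling factors
  obtain ⟨σ, hσ0, hσ⟩ : ∃ σ : ℝ, 0 < σ ∧ ∀ i, σ ≤ |s i| := by
    rcases isEmpty_or_nonempty (Fin N) with hN' | hN'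
    · exact ⟨1, one_pos, fun i => (hN'.false i).elim⟩
    · obtain ⟨i₀, hi₀⟩ := Finite.exists_min fun i => |s i|
      exact ⟨|s i₀|, abs_pos.2 (hs i₀), hi₀⟩
  obtain ⟨c, hc⟩ := count_bad k N t ((B' + k * |B|) / σ)
  refine ⟨c, fun R hR => ?_⟩
  obtain ⟨S, hS, hS'⟩ := hc R hR
  refine ⟨S, hS, fun e he heS g hg hge => ?_⟩
  by_contra hcon
  obtain ⟨T, hT, φ, hφ, hφB⟩ := hmain g hg hcon
  refine heS (hS' e he ⟨T, hT, φ, hφ, fun i hi => ?_⟩)
  have h1 : s i * ∑ j, φ j * (e i j : ℝ) = ∑ j, φ j * Real.log (v i (g j)) -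
      ∑ j, φ j * (Real.log (v i (g j)) - s i * e i j) := by
    rw [Finset.mul_sum, ← Finset.sum_sub_distrib]
    refine Finset.sum_congr rfl fun j _ => ?_
    ring
  have h2 : |∑ j, φ j * (Real.log (v i (g j)) - s i * e i j)| ≤ k * |B| := by
    calc |∑ j, φ j * (Real.log (v i (g j)) - s i * e i j)|
        ≤ ∑ j, |φ j * (Real.log (v i (g j)) - s i * e i j)| := Finset.abs_sum_le_sum_abs _ _
      _ ≤ ∑ _j : Fin k, (1 : ℝ) * |B| := by
          refine Finset.sum_le_sum fun j _ => ?_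
          rw [abs_mul]
          exact mul_le_mul (hφ ▸ norm_le_pi_norm φ j) ((hge i j).trans (le_abs_self B))
            (abs_nonneg _) zero_le_one
      _ = k * |B| := by
          rw [Finset.sum_const, Finset.card_univ, Fintype.card_fin, nsmul_eq_mul, one_mul]
  have h3 : |s i| * |∑ j, φ j * (e i j : ℝ)| ≤ B' + k * |B| := by
    rw [← abs_mul, h1]
    exact (abs_sub _ _).trans (add_le_add (hφB i hi) h2)
  rw [le_div_iff₀ hσ0, mul_comm]
  exact (mul_le_mul_of_nonneg_right (hσ i) (abs_nonneg _)).trans h3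

/-- The case of `S`-unit translates. -/
theorem general_primes (hD : 4 * a ^ 3 + 27 * b ^ 2 ≠ 0) (Q : Fin k → Pt a b)
    (hQ : ∀ i, Q i ≠ 0 → ∀ n : ℕ, 0 < n → n • Q i ≠ 0) (m : ℕ)
    (V : Set (Pt a b × (Fin k → ℂ))) (hV : DimLE m V)
    (hF : ∀ P : Pt a b, (∃ n : ℕ, 0 < n ∧ n • P = 0) → FibLT m V P) :
    ∃ K : ℕ, ∀ N t : ℕ, K * t < N →
      (∀ p : Fin N → ℕ, (∀ i, (p i).Prime) → Function.Injective p →
        ∃ v : Fin N → AbsoluteValue ℂ ℝ, ∃ c : ℕ, ∀ R : ℕ, 1 ≤ R →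
        Nat.card {e : Fin N → Fin k → ℤ // (∀ i j, |e i j| ≤ R) ∧
          ¬ NoAtW Q m v 0 (trans (fun j => ∏ i, (p i : ℂ) ^ e i j) V)} *
            (2 * R + 1) ^ t ≤ c * (2 * R + 1) ^ (k * N + k - 1)) ∧
      (∀ v : Fin N → AbsoluteValue ℂ ℝ, (∀ i, IsNonarchimedean (v i)) → ∀ B : ℝ, ∃ c : ℕ,
        ∀ R : ℕ, 1 ≤ R → ∃ S : Finset (Fin N → Fin k → ℤ),
          S.card * (2 * R + 1) ^ t ≤ c * (2 * R + 1) ^ (k * N + k - 1) ∧
          ∀ e : Fin N → Fin k → ℤ, (∀ i j, |e i j| ≤ R) → e ∉ S →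
            ∀ g : Fin k → ℂ, (∀ j, g j ≠ 0) →
              (∀ i j, |Real.log (v i (g j)) - e i j| ≤ B) →
                NoAtW Q m v B (trans g V)) := by
  classical
  obtain ⟨K, h⟩ := general hD Q hQ m V hV hF
  refine ⟨K, fun N t hN => ⟨fun p hp hpi => ?_, fun v hv B => ?_⟩⟩
  · have hfact : ∀ i, Fact (p i).Prime := fun i => ⟨hp i⟩
    let τ : ∀ i, ℂ →+* PadicAlgCl (p i) := fun i =>
      Classical.choice (H936R2.exists_embedding (p i))
    let s : Fin N → ℝ := fun i => -Real.log (p i)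
    have hs : ∀ i, s i ≠ 0 := fun i =>
      neg_ne_zero.2 (Real.log_pos (by exact_mod_cast (hp i).one_lt)).ne'
    obtain ⟨c, hc⟩ := h N t hN (fun i => pabs (p i) (τ i)) (fun i => pabs_nonarch (p i) (τ i)) s hs 0
    refine ⟨fun i => pabs (p i) (τ i), c, fun R hR => ?_⟩
    obtain ⟨S, hS, hS'⟩ := hc R hR
    refine le_trans (Nat.mul_le_mul_right _ ?_) hS
    have hlog : ∀ (i : Fin N) (e : Fin N → Fin k → ℤ) (j : Fin k),
        Real.log (pabs (p i) (τ i) (∏ l, (p l : ℂ) ^ e l j)) = s i * e i j := by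
      intro i e j
      have hq : (∏ l, (p l : ℚ) ^ e l j) ≠ 0 := Finset.prod_ne_zero_iff.2 fun l _ =>
        zpow_ne_zero _ (by exact_mod_cast (hp l).ne_zero)
      have h1 : (∏ l, (p l : ℂ) ^ e l j) = ((∏ l, (p l : ℚ) ^ e l j : ℚ) : ℂ) := by
        push_cast
        rfl
      rw [h1, log_pabs _ _ _ hq]
      have h2 : padicValRat (p i) (∏ l, (p l : ℚ) ^ e l j) = e i j := by
        have h3 : ∀ t : Finset (Fin N), padicValRat (p i) (∏ l ∈ t, (p l : ℚ) ^ e l j) =
            ∑ l ∈ t, padicValRat (p i) ((p l : ℚ) ^ e l j) := by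
          intro t
          induction t using Finset.induction_on with
          | empty => simp
          | insert a t ha ih =>
            rw [Finset.prod_insert ha, Finset.sum_insert ha, padicValRat.mul, ih]
            · exact zpow_ne_zero _ (by exact_mod_cast (hp a).ne_zero)
            · exact Finset.prod_ne_zero_iff.2 fun l _ =>
                zpow_ne_zero _ (by exact_mod_cast (hp l).ne_zero)
        rw [h3, Finset.sum_eq_single i]
        · rw [padicValRat.zpow, padicValRat.self (hp i).one_lt, mul_one]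
        · intro l _ hl
          have h4 : padicValNat (p i) (p l) = 0 := by
            apply padicValNat.eq_zero_of_not_dvd
            intro hd
            exact hl (hpi ((Nat.prime_dvd_prime_iff_eq (hp i) (hp l)).1 hd)).symm
          rw [padicValRat.zpow, padicValRat.of_nat, h4]
          simp
        · intro hi
          exact absurd (Finset.mem_univ i) hi
      rw [h2]
      change -(e i j : ℝ) * Real.log (p i) = -Real.log (p i) * e i j
      ring
    have hinj : Nat.card {e : Fin N → Fin k → ℤ // (∀ i j, |e i j| ≤ R) ∧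
        ¬ NoAtW Q m (fun i => pabs (p i) (τ i)) 0
          (trans (fun j => ∏ i, (p i : ℂ) ^ e i j) V)} ≤ Nat.card S := by
      refine Nat.card_le_card_of_injective (fun e => ⟨e.1, ?_⟩) ?_
      · by_contra hcon
        apply e.2.2
        exact hS' e.1 e.2.1 hcon (fun j => ∏ i, (p i : ℂ) ^ e.1 i j)
          (fun j => Finset.prod_ne_zero_iff.2 fun l _ =>
            zpow_ne_zero _ (by exact_mod_cast (hp l).ne_zero))
          (fun i j => by rw [hlog, sub_self, abs_zero])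
      · intro e e' hee
        exact Subtype.ext (congrArg (fun z : S => (z : Fin N → Fin k → ℤ)) hee)
    have hEc : Nat.card S = S.card := by rw [Nat.card_eq_fintype_card, Fintype.card_coe]
    rwa [hEc] at hinj
  · obtain ⟨c, hc⟩ := h N t hN v hv (fun _ => 1) (fun _ => one_ne_zero) B
    refine ⟨c, fun R hR => ?_⟩
    obtain ⟨S, hS, hS'⟩ := hc R hR
    refine ⟨S, hS, fun e he heS g hg hge => hS' e he heS g hg fun i j => ?_⟩
    rw [one_mul]
    exact hge i j

/-- the torsion points over the origin -/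
lemma torsion_zero (Q : Fin k → Pt a b) (η : Fin k → ℂ) {n : ℕ} (h : gpow Q (0, η) n = (0, 1)) :
    ∀ i, η i ^ n = 1 := by
  intro i
  rw [gpow_eq] at h
  have h1 : η i ^ n * ∏ j ∈ Finset.range n, miller (Q i) 0 (j • (0 : Pt a b)) = 1 :=
    congrFun (congrArg Prod.snd h) i
  have h2 : ∀ P : Pt a b, miller (Q i) 0 P = 1 := by
    intro P
    rcases Q i with _ | ⟨X, Y, nQ⟩ <;> rfl
  simp only [h2, Finset.prod_const_one, mul_one] at h1
  exact h1

end Pool.Agent.Y237.SA
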