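import Pool.Agent.Y237.SA.Sys

/-!
# The criterion for extensions of an elliptic curve by a torus

Helper file.
-/

set_option autoImplicit false

namespace Pool.Agent.Y237.SA

open MvPolynomial WeierstrassCurve Pool.Agent.H901R3.MS
open Pool.Agent.H173R3.ZT Pool.Agent.TH526.ZT
open Pool.Agent.Results.MP_b7926e_nt.NoAtypical (coset idealOf dim mem_idealOf)

variable {a b : ℂ} {k : ℕ}

/-- translation by an element of the torus -/
def trans (g : Fin k → ℂ) (V : Set (Pt a b × (Fin k → ℂ))) : Set (Pt a b × (Fin k → ℂ)) :=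
  {h | ∃ h' ∈ V, h.1 = h'.1 ∧ ∀ i, h.2 i = g i * h'.2 i}

/-- the dimension of `V` is at most `m` -/
def DimLE (m : ℕ) (V : Set (Pt a b × (Fin k → ℂ))) : Prop :=
  (∀ J : Finset (Fin k), J.card = m + 1 → ∃ F : MvPolynomial J ℂ, F ≠ 0 ∧
    ∀ g ∈ V, eval (fun j : J => g.2 j) F = 0) ∧
  ∀ J : Finset (Fin k), J.card = m → ∃ F : MvPolynomial (Option J) ℂ, F ≠ 0 ∧
    ∀ x y h u, ((Affine.Point.some x y h : Pt a b), u) ∈ V →
      eval (fun o : Option J => o.elim x fun j => u j) F = 0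

/-- the dimension of the fibre of `V` over `P` is less than `m` -/
def FibLT (m : ℕ) (V : Set (Pt a b × (Fin k → ℂ))) (P : Pt a b) : Prop :=
  ∀ J : Finset (Fin k), J.card = m → ∃ F : MvPolynomial J ℂ, F ≠ 0 ∧
    ∀ u, (P, u) ∈ V → eval (fun j : J => u j) F = 0

/-- there are `t` places at which the vectors `log v_i(g)` are near to a hyperplane -/
def Bad {N : ℕ} (t : ℕ) (v : Fin N → AbsoluteValue ℂ ℝ) (g : Fin k → ℂ) (B' : ℝ) : Prop :=
  ∃ T : Finset (Fin N), T.card = t ∧ ∃ φ : Fin k → ℝ, ‖φ‖ = 1 ∧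
    ∀ i ∈ T, |∑ j, φ j * Real.log (v i (g j))| ≤ B'

lemma Bad.mono {N t : ℕ} {v : Fin N → AbsoluteValue ℂ ℝ} {g : Fin k → ℂ} {B B' : ℝ} (h : B ≤ B')
    (hb : Bad t v g B) : Bad t v g B' := by
  obtain ⟨T, hT, φ, hφ, h'⟩ := hb
  exact ⟨T, hT, φ, hφ, fun i hi => (h' i hi).trans h⟩

lemma nonempty_of_prime' {A : Set (Fin k → ℂ)} (hA : (idealOf A).IsPrime) : A.Nonempty := by
  rw [Set.nonempty_iff_ne_empty]
  rintro rfl
  apply hA.ne_top
  rw [Ideal.eq_top_iff_one, mem_idealOf]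
  intro x hx
  exact absurd hx (Set.notMem_empty x)

lemma eval_ne_zero_of_supp {f : MvPolynomial (Fin k) ℂ} (hf : f ≠ 0)
    (hs : ∀ α ∈ f.support, ∀ j, α j = 0) (y : Fin k → ℂ) : eval y f ≠ 0 := by
  obtain ⟨α, hα⟩ := ne_zero_iff.1 hf
  have h0 : ∀ γ ∈ f.support, γ = 0 := fun γ hγ => by
    ext j
    exact hs γ hγ j
  have hα0 : α = 0 := h0 α (mem_support_iff.2 hα)
  rw [eval_eq', Finset.sum_eq_single α]
  · rw [hα0]
    simpa [hα0] using hα
  · intro γ hγ hne
    exact absurd ((h0 γ hγ).trans hα0.symm) hne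
  · intro h
    exact absurd (mem_support_iff.2 hα) h

/-- **Relations for the torus.** -/
theorem torA (m : ℕ) (f : {J : Finset (Fin k) // J.card = m} → MvPolynomial (Fin k) ℂ)
    (hf0 : ∀ J, f J ≠ 0) (hfJ : ∀ J, ∀ α ∈ (f J).support, ∀ j, j ∉ J.1 → α j = 0) :
    ∃ K : ℕ, ∀ N t : ℕ, K * t < N → ∀ v : Fin N → AbsoluteValue ℂ ℝ, ∀ B : ℝ,
      ∃ B' : ℝ, 0 ≤ B' ∧ ∀ g : Fin k → ℂ, (∀ j, g j ≠ 0) →
        ∀ (M : Submodule ℤ (Fin k → ℤ)) (η : Fin k → ℂ), (∀ j, η j ≠ 0) →
          (∀ i j, |Real.log (v i (η j))| ≤ B) → ∀ A ⊆ coset M η,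
            (∀ J, ∀ y ∈ A, eval (fun j => (g j)⁻¹ * y j) (f J) = 0) →
            (idealOf A).IsPrime → (m : Cardinal) ≤ dim A + (Module.finrank ℤ M : Cardinal) →
            Bad t v g B' := by
  classical
  rcases m with _ | d
  · refine ⟨0, fun N t _ v B => ⟨0, le_rfl, fun g hg M η hη hηB A hAT hAf hA _ => ?_⟩⟩
    obtain ⟨y, hy⟩ := nonempty_of_prime' hA
    have h1 := hAf ⟨∅, rfl⟩ y hy
    exact absurd h1 (eval_ne_zero_of_supp (hf0 _) (fun α hα j => hfJ _ α hα j
      (Finset.notMem_empty j)) _)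
  · refine ⟨(Fintype.piFinset fun J => (f J).support ×ˢ (f J).support).card,
      fun N t hN v B => ?_⟩
    let ε : ℝ := ∑ i, ∑ J, err (v i) (f J)
    obtain ⟨B', hB', h⟩ := crit d (fun J => (f J).support) hfJ N t hN v B ε
    refine ⟨B', hB', fun g hg M η hη hηB A hAT hAf hA hdim => ?_⟩
    refine h f hf0 (fun J => subset_rfl) (fun i J => ?_) g hg M η hη hηB A hAT hAf hA
      (lt_of_lt_of_le ?_ hdim)
    · calc err (v i) (f J) ≤ ∑ J, err (v i) (f J) :=
            Finset.single_le_sum (f := fun J => err (v i) (f J)) (fun J _ => err_nonneg _ _)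
              (Finset.mem_univ J)
        _ ≤ ε := Finset.single_le_sum (f := fun i => ∑ J, err (v i) (f J))
            (fun i _ => Finset.sum_nonneg fun J _ => err_nonneg _ _) (Finset.mem_univ i)
    · exact_mod_cast Nat.lt_succ_self d

/-- **Relations for a family.** -/
theorem famA (m : ℕ) (H : {J : Finset (Fin k) // J.card = m} → MvPolynomial (Fin k) (Polynomial ℂ))
    (hfJ : ∀ J, ∀ α ∈ (H J).support, ∀ j, j ∉ J.1 → α j = 0) (S : Set ℂ) :
    ∃ K : ℕ, ∀ N t : ℕ, K * t < N → ∀ v : Fin N → AbsoluteValue ℂ ℝ, (∀ i, DiscSet (v i) S) →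
      ∀ B : ℝ, ∃ B' : ℝ, 0 ≤ B' ∧ ∀ g : Fin k → ℂ, (∀ j, g j ≠ 0) →
        ∀ s ∈ S, (∀ J, spec s (H J) ≠ 0) →
        ∀ (M : Submodule ℤ (Fin k → ℤ)) (η : Fin k → ℂ), (∀ j, η j ≠ 0) →
          (∀ i j, |Real.log (v i (η j))| ≤ B) → ∀ A ⊆ coset M η,
            (∀ J, ∀ y ∈ A, eval (fun j => (g j)⁻¹ * y j) (spec s (H J)) = 0) →
            (idealOf A).IsPrime → (m : Cardinal) ≤ dim A + (Module.finrank ℤ M : Cardinal) →
            Bad t v g B' := by
  classical
  rcases m with _ | d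
  · refine ⟨0, fun N t _ v _ B => ⟨0, le_rfl, fun g hg s hs hsne M η hη hηB A hAT hAf hA _ => ?_⟩⟩
    obtain ⟨y, hy⟩ := nonempty_of_prime' hA
    have h1 := hAf ⟨∅, rfl⟩ y hy
    exact absurd h1 (eval_ne_zero_of_supp (hsne _) (fun α hα j => hfJ _ α (support_spec _ _ hα) j
      (Finset.notMem_empty j)) _)
  · refine ⟨(Fintype.piFinset fun J => (H J).support ×ˢ (H J).support).card,
      fun N t hN v hv B => ?_⟩
    choose E hE using fun (i : Fin N) (J : {J : Finset (Fin k) // J.card = d + 1}) =>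
      err_spec (v i) (hv i) (H J)
    let ε : ℝ := ∑ i, ∑ J, |E i J|
    obtain ⟨B', hB', h⟩ := crit d (fun J => (H J).support) hfJ N t hN v B ε
    refine ⟨B', hB', fun g hg s hs hsne M η hη hηB A hAT hAf hA hdim => ?_⟩
    refine h (fun J => spec s (H J)) hsne (fun J => support_spec _ _) (fun i J => ?_) g hg M η hη
      hηB A hAT hAf hA (lt_of_lt_of_le ?_ hdim)
    · calc err (v i) (spec s (H J)) ≤ |E i J| := (hE i J s hs (hsne J)).trans (le_abs_self _)
        _ ≤ ∑ J, |E i J| :=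
            Finset.single_le_sum (f := fun J => |E i J|) (fun J _ => abs_nonneg _)
              (Finset.mem_univ J)
        _ ≤ ε := Finset.single_le_sum (f := fun i => ∑ J, |E i J|)
            (fun i _ => Finset.sum_nonneg fun J _ => abs_nonneg _) (Finset.mem_univ i)
    · exact_mod_cast Nat.lt_succ_self d

lemma coset_mono {M : Submodule ℤ (Fin k → ℤ)} {η : Fin k → ℂ} : coset M η ⊆ coset M η := subset_rfl

/-- the key of a point -/
def pk : Pt a b → Option (ℂ × ℂ)
  | .zero => none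
  | .some x y _ => some (x, y)

lemma pk_inj : Function.Injective (pk : Pt a b → Option (ℂ × ℂ)) := by
  intro P P' h
  rcases P with _ | ⟨x, y, n⟩ <;> rcases P' with _ | ⟨x', y', n'⟩
  · rfl
  · cases h
  · cases h
  · simp only [pk, Option.some.injEq, Prod.mk.injEq] at h
    obtain ⟨rfl, rfl⟩ := h
    rfl

/-- finitely many points have `x`-coordinates in a finite set -/
lemma finite_points {X0 : Set ℂ} (hX0 : X0.Finite) :
    {P : Pt a b | P = 0 ∨ ∃ x y h, P = Affine.Point.some x y h ∧ x ∈ X0}.Finite := by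
  refine Set.Finite.of_finite_image (f := pk) ?_ (pk_inj.injOn)
  have h1 : (⋃ x ∈ X0, (fun y : ℂ => some (x, y)) '' {y : ℂ | y ^ 2 = x ^ 3 + a * x + b}).Finite := by
    refine hX0.biUnion fun x _ => Set.Finite.image _ ?_
    have h2 : (Polynomial.X ^ 2 - Polynomial.C (x ^ 3 + a * x + b) : Polynomial ℂ) ≠ 0 :=
      Polynomial.X_pow_sub_C_ne_zero (by norm_num) _
    refine (Polynomial.finite_setOfPred_isRoot h2).subset fun y hy => ?_
    change Polynomial.eval y _ = 0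
    rw [Polynomial.eval_sub, Polynomial.eval_pow, Polynomial.eval_X, Polynomial.eval_C]
    exact sub_eq_zero.2 hy
  refine ((Set.finite_singleton none).union h1).subset ?_
  rintro _ ⟨P, hP, rfl⟩
  rcases hP with rfl | ⟨x, y, h, rfl, hx⟩
  · exact Or.inl rfl
  · refine Or.inr (Set.mem_biUnion hx ⟨y, ?_, rfl⟩)
    have := equation_iff.1 h.1
    exact this

/-- `W` has only typical intersections with the cosets over torsion points, and with the preimages
of cosets of the torus, up to translations bounded by `B` -/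
def NoAtW {N : ℕ} (Q : Fin k → Pt a b) (m : ℕ) (v : Fin N → AbsoluteValue ℂ ℝ) (B : ℝ)
    (W : Set (Pt a b × (Fin k → ℂ))) : Prop :=
  (∀ (P : Pt a b) (η θ : Fin k → ℂ) (n : ℕ), 0 < n → gpow Q (P, η) n = (0, 1) →
    (∀ j, θ j ≠ 0) → (∀ i j, |Real.log (v i (θ j))| ≤ B) →
    ∀ (M : Submodule ℤ (Fin k → ℤ)) (A : Set (Fin k → ℂ)), A ⊆ {u | (P, u) ∈ W} →
      A ⊆ coset M (fun j => η j * θ j) → (idealOf A).IsPrime →
      dim A + (Module.finrank ℤ M : Cardinal) + 1 ≤ (m : Cardinal)) ∧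
  ∀ θ : Fin k → ℂ, (∀ j, θ j ≠ 0) → (∀ i j, |Real.log (v i (θ j))| ≤ B) →
    ∀ (M : Submodule ℤ (Fin k → ℤ)) (A : Set (Fin (k + 2) → ℂ)),
      (∀ z ∈ A, ∃ h, ((Affine.Point.some (z 0) (z 1) h : Pt a b), tl2 z) ∈ W) →
      (∀ z ∈ A, tl2 z ∈ coset M θ) → (idealOf A).IsPrime →
      dim A + (Module.finrank ℤ M : Cardinal) ≤ (m : Cardinal)

lemma exists_nat_dim {n : ℕ} (A : Set (Fin n → ℂ)) : ∃ d : ℕ, dim A = (d : Cardinal) := by
  have hfin : Algebra.trdeg ℂ (MvPolynomial (Fin n) ℂ ⧸ idealOf A) < Cardinal.aleph0 :=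
    trdeg_lt_aleph0_of_finiteType
  obtain ⟨d, hd⟩ := Cardinal.lt_aleph0.1 hfin
  exact ⟨d, hd⟩

/-- **The criterion.** -/
theorem main_crit (hD : 4 * a ^ 3 + 27 * b ^ 2 ≠ 0) (Q : Fin k → Pt a b)
    (hQ : ∀ i, Q i ≠ 0 → ∀ n : ℕ, 0 < n → n • Q i ≠ 0) (m : ℕ)
    (V : Set (Pt a b × (Fin k → ℂ))) (hV : DimLE m V)
    (hF : ∀ P : Pt a b, (∃ n : ℕ, 0 < n ∧ n • P = 0) → FibLT m V P) :
    ∃ K : ℕ, ∀ N t : ℕ, K * t < N → ∀ v : Fin N → AbsoluteValue ℂ ℝ,
      (∀ i, IsNonarchimedean (v i)) → ∀ B : ℝ, ∃ B' : ℝ, 0 ≤ B' ∧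
        ∀ g : Fin k → ℂ, (∀ j, g j ≠ 0) → ¬ NoAtW Q m v B (trans g V) → Bad t v g B' := by
  classical
  obtain ⟨hV1, hV2⟩ := hV
  choose F1 hF1 hF1' using fun J : {J : Finset (Fin k) // J.card = m + 1} => hV1 J.1 J.2
  choose F2 hF2 hF2' using fun J : {J : Finset (Fin k) // J.card = m} => hV2 J.1 J.2
  -- the relations between the torus coordinates
  let f1 : {J : Finset (Fin k) // J.card = m + 1} → MvPolynomial (Fin k) ℂ := fun J =>
    rename (Subtype.val : J.1 → Fin k) (F1 J)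
  have hf1 : ∀ J, f1 J ≠ 0 := fun J h => hF1 J (rename_injective _ Subtype.val_injective
    (by rw [map_zero]; exact h))
  obtain ⟨K1, hK1⟩ := torA (m + 1) f1 hf1 (fun J α hα j hj => supp_rename J.1 (F1 J) α hα j hj)
  -- the relations with `x`
  let H : {J : Finset (Fin k) // J.card = m} → MvPolynomial (Fin k) (Polynomial ℂ) := fun J =>
    toH J.1 (F2 J)
  have hH : ∀ J, H J ≠ 0 := fun J => toH_ne_zero (hF2 J)
  have hHs : ∀ J, ∀ α ∈ (H J).support, ∀ j, j ∉ J.1 → α j = 0 := fun J α hα j hj =>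
    supp_rename J.1 _ α hα j hj
  obtain ⟨K2, hK2⟩ := famA m H hHs (TX a b)
  choose β hβ using fun J => exists_cof_ne_zero (hH J)
  obtain ⟨K3, hK3⟩ := torA m (fun J => cof (β J) (H J)) hβ
    (fun J α hα j hj => hHs J α (support_cof _ _ hα) j hj)
  -- the exceptional fibres
  have hX0 : (⋃ J, {s : ℂ | spec s (H J) = 0}).Finite := Set.finite_iUnion fun J =>
    finite_spec_eq_zero (hH J)
  have hfinP := finite_points (a := a) (b := b) hX0
  have hfib : ∀ P : Pt a b, ∃ K : ℕ, (∃ n : ℕ, 0 < n ∧ n • P = 0) →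
      ∀ N t : ℕ, K * t < N → ∀ v : Fin N → AbsoluteValue ℂ ℝ, ∀ B : ℝ,
      ∃ B' : ℝ, 0 ≤ B' ∧ ∀ g : Fin k → ℂ, (∀ j, g j ≠ 0) →
        ∀ (M : Submodule ℤ (Fin k → ℤ)) (η : Fin k → ℂ), (∀ j, η j ≠ 0) →
          (∀ i j, |Real.log (v i (η j))| ≤ B) → ∀ A ⊆ coset M η, A ⊆ {u | (P, u) ∈ trans g V} →
            (idealOf A).IsPrime → (m : Cardinal) ≤ dim A + (Module.finrank ℤ M : Cardinal) →
            Bad t v g B' := by
    intro P
    by_cases hP : ∃ n : ℕ, 0 < n ∧ n • P = 0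
    · choose F4 hF4 hF4' using fun J : {J : Finset (Fin k) // J.card = m} => hF P hP J.1 J.2
      obtain ⟨K, hK⟩ := torA m (fun J => rename (Subtype.val : J.1 → Fin k) (F4 J))
        (fun J h => hF4 J (rename_injective _ Subtype.val_injective
          (by rw [map_zero]; exact h)))
        (fun J α hα j hj => supp_rename J.1 (F4 J) α hα j hj)
      refine ⟨K, fun _ N t hN v B => ?_⟩
      obtain ⟨B', hB', h⟩ := hK N t hN v B
      refine ⟨B', hB', fun g hg M η hη hηB A hAT hAW hA hdim => h g hg M η hη hηB A hAT ?_ hA hdim⟩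
      intro J y hy
      obtain ⟨h', hh', h1, h2⟩ := hAW hy
      rw [eval_rename]
      have h3 : (fun j => (g j)⁻¹ * y j) ∘ (Subtype.val : J.1 → Fin k) =
          fun j : J.1 => h'.2 j := by
        funext j
        have e4 : y j = g j * h'.2 j := h2 j
        simp only [Function.comp_apply]
        rw [e4, inv_mul_cancel_left₀ (hg _)]
      rw [h3]
      refine hF4' J h'.2 ?_
      have h4 : P = h'.1 := h1
      rw [h4]
      exact hh'
    · exact ⟨0, fun h => absurd h hP⟩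
  choose K4 hK4 using hfib
  set K5 : ℕ := ∑ P ∈ hfinP.toFinset, K4 P with hK5
  refine ⟨K1 + K2 + K3 + K5, fun N t hN v hv B => ?_⟩
  have hN1 : K1 * t < N := lt_of_le_of_lt (Nat.mul_le_mul_right t (by omega)) hN
  have hN2 : K2 * t < N := lt_of_le_of_lt (Nat.mul_le_mul_right t (by omega)) hN
  have hN3 : K3 * t < N := lt_of_le_of_lt (Nat.mul_le_mul_right t (by omega)) hN
  have hN4 : ∀ P ∈ hfinP.toFinset, K4 P * t < N := fun P hP =>
    lt_of_le_of_lt (Nat.mul_le_mul_right t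
      ((Finset.single_le_sum (f := K4) (fun _ _ => Nat.zero_le _) hP).trans (by omega))) hN
  -- the bound for the torsion points
  choose Bt hBt0 hBt using fun i => torsion_bound (v i) (hv i) hD Q hQ
  set B2 : ℝ := |B| + ∑ i, Bt i with hB2
  have hBB : B ≤ B2 := (le_abs_self B).trans (le_add_of_nonneg_right
    (Finset.sum_nonneg fun i _ => hBt0 i))
  obtain ⟨B'1, hB'1, h1⟩ := hK1 N t hN1 v B2
  obtain ⟨B'2, hB'2, h2⟩ := hK2 N t hN2 v (fun i => discSet_TX (v i) (hv i) a b hD) B2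
  obtain ⟨B'3, hB'3, h3⟩ := hK3 N t hN3 v B2
  have h4 : ∀ P : Pt a b, ∃ B' : ℝ, 0 ≤ B' ∧ ((∃ n : ℕ, 0 < n ∧ n • P = 0) → P ∈ hfinP.toFinset →
      ∀ g : Fin k → ℂ, (∀ j, g j ≠ 0) →
        ∀ (M : Submodule ℤ (Fin k → ℤ)) (η : Fin k → ℂ), (∀ j, η j ≠ 0) →
          (∀ i j, |Real.log (v i (η j))| ≤ B2) → ∀ A ⊆ coset M η, A ⊆ {u | (P, u) ∈ trans g V} →
            (idealOf A).IsPrime → (m : Cardinal) ≤ dim A + (Module.finrank ℤ M : Cardinal) →
            Bad t v g B') := by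
    intro P
    by_cases hP : (∃ n : ℕ, 0 < n ∧ n • P = 0) ∧ P ∈ hfinP.toFinset
    · obtain ⟨B', hB', h⟩ := hK4 P hP.1 N t (hN4 P hP.2) v B2
      exact ⟨B', hB', fun _ _ => h⟩
    · exact ⟨0, le_rfl, fun h h' => absurd ⟨h, h'⟩ hP⟩
  choose B'4 hB'4 h4 using h4
  set B5 : ℝ := ∑ P ∈ hfinP.toFinset, B'4 P with hB5
  have hB50 : 0 ≤ B5 := Finset.sum_nonneg fun P _ => hB'4 P
  refine ⟨B'1 + B'2 + B'3 + B5, by positivity, fun g hg hno => ?_⟩
  rw [NoAtW, not_and_or] at hno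
  rcases hno with hno | hno
  · -- a torsion point
    push Not at hno
    obtain ⟨P, η, θ, n, hn, hpow, hθ, hθB, M, A, hAW, hAT, hA, hdim⟩ := hno
    obtain ⟨d, hd⟩ := exists_nat_dim A
    have hdim' : (m : Cardinal) ≤ dim A + (Module.finrank ℤ M : Cardinal) := by
      rw [hd] at hdim ⊢
      have h5 : m < d + Module.finrank ℤ M + 1 := by exact_mod_cast hdim
      have h6 : m ≤ d + Module.finrank ℤ M := by omega
      exact_mod_cast h6
    have hPtor : n • P = 0 := by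
      rcases isEmpty_or_nonempty (Fin N) with he | ⟨⟨i⟩⟩
      · rw [gpow_eq] at hpow
        exact congrArg Prod.fst hpow
      · exact (hBt i _ n hn hpow).1
    have hη0 : ∀ j, η j ≠ 0 := by
      intro j h0
      rw [gpow_eq] at hpow
      have h5 := congrFun (congrArg Prod.snd hpow) j
      simp only [h0, zero_pow hn.ne', zero_mul, Pi.one_apply] at h5
      exact zero_ne_one h5
    have hηθ : ∀ j, η j * θ j ≠ 0 := fun j => mul_ne_zero (hη0 j) (hθ j)
    have hηθB : ∀ i j, |Real.log (v i (η j * θ j))| ≤ B2 := by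
      intro i j
      rw [map_mul, Real.log_mul ((v i).ne_zero (hη0 j)) ((v i).ne_zero (hθ j))]
      refine (abs_add_le _ _).trans ?_
      rw [hB2, add_comm]
      refine add_le_add ((hθB i j).trans (le_abs_self B)) ?_
      exact ((hBt i _ n hn hpow).2 j).2.trans
        (Finset.single_le_sum (f := Bt) (fun i _ => hBt0 i) (Finset.mem_univ i))
    by_cases hPf : P ∈ hfinP.toFinset
    · refine (h4 P ⟨n, hn, hPtor⟩ hPf g hg M _ hηθ hηθB A hAT hAW hA hdim').mono ?_
      have h5 : B'4 P ≤ B5 := Finset.single_le_sum (f := B'4) (fun P _ => hB'4 P) hPf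
      linarith
    · rw [Set.Finite.mem_toFinset] at hPf
      rcases P with _ | ⟨x, y, hxy⟩
      · exact absurd (Or.inl rfl) hPf
      · have hspec : ∀ J, spec x (H J) ≠ 0 := by
          intro J hJ
          exact hPf (Or.inr ⟨x, y, hxy, rfl, Set.mem_iUnion.2 ⟨J, hJ⟩⟩)
        refine (h2 g hg x ⟨y, hxy, n, hn, hPtor⟩ hspec M _ hηθ hηθB A hAT ?_ hA hdim').mono
          (by linarith)
        intro J u hu
        obtain ⟨h', hh', e1, e2⟩ := hAW hu
        have e3 : (fun j => (g j)⁻¹ * u j) = h'.2 := by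
          funext j
          have e4 : u j = g j * h'.2 j := e2 j
          rw [e4, inv_mul_cancel_left₀ (hg j)]
        rw [e3, eval_toH]
        refine hF2' J x y hxy h'.2 ?_
        have e5 : (Affine.Point.some x y hxy : Pt a b) = h'.1 := e1
        rw [e5]
        exact hh'
  · -- the preimage of a coset
    push Not at hno
    obtain ⟨θ, hθ, hθB, M, A, hAW, hAT, hA, hdim⟩ := hno
    have hθB' : ∀ i j, |Real.log (v i (θ j))| ≤ B2 := fun i j => (hθB i j).trans hBB
    have hE : ∀ z ∈ A, z 1 ^ 2 = z 0 ^ 3 + a * z 0 + b := by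
      intro z hz
      obtain ⟨h, -⟩ := hAW z hz
      exact equation_iff.1 h.1
    obtain ⟨hprime, hcase⟩ := proj A hA a b hE
    have hAT' : tl2 '' A ⊆ coset M θ := by
      rintro _ ⟨z, hz, rfl⟩
      exact hAT z hz
    obtain ⟨d, hd⟩ := exists_nat_dim A
    obtain ⟨d', hd'⟩ := exists_nat_dim (tl2 '' A)
    have hVz : ∀ z ∈ A, ∃ h, ((Affine.Point.some (z 0) (z 1) h : Pt a b),
        fun j => (g j)⁻¹ * tl2 z j) ∈ V := by
      intro z hz
      obtain ⟨h, h', hh', e1, e2⟩ := hAW z hz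
      refine ⟨h, ?_⟩
      have e3 : (fun j => (g j)⁻¹ * tl2 z j) = h'.2 := by
        funext j
        have e4 : tl2 z j = g j * h'.2 j := e2 j
        rw [e4, inv_mul_cancel_left₀ (hg j)]
      have e5 : (Affine.Point.some (z 0) (z 1) h : Pt a b) = h'.1 := e1
      rw [e3, e5]
      exact hh'
    rw [hd] at hdim
    have hdim0 : m < d + Module.finrank ℤ M := by exact_mod_cast hdim
    rcases hcase with hle | ⟨hle, hcoef⟩
    · rw [hd, hd'] at hle
      have hle' : d ≤ d' := by exact_mod_cast hle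
      refine (h1 g hg M θ hθ hθB' _ hAT' ?_ hprime ?_).mono (by linarith)
      · intro J y hy
        obtain ⟨z, hz, rfl⟩ := hy
        obtain ⟨h, hh⟩ := hVz z hz
        have h8 := hF1' J ((Affine.Point.some (z 0) (z 1) h : Pt a b),
          fun j => (g j)⁻¹ * tl2 z j) hh
        have h9 : eval (fun j => (g j)⁻¹ * tl2 z j)
            (rename (Subtype.val : J.1 → Fin k) (F1 J)) = 0 := by
          rw [eval_rename]
          exact h8
        exact h9
      · rw [hd']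
        have h5 : m + 1 ≤ d' + Module.finrank ℤ M := by omega
        exact_mod_cast h5
    · rw [hd, hd'] at hle
      have hle' : d ≤ d' + 1 := by exact_mod_cast hle
      refine (h3 g hg M θ hθ hθB' _ hAT' ?_ hprime ?_).mono (by linarith)
      · intro J y hy
        obtain ⟨D, hDD⟩ : ∃ D : ℕ, ∀ α ∈ (H J).support, (coeff α (H J)).natDegree < D := by
          refine ⟨(H J).support.sup (fun α => (coeff α (H J)).natDegree) + 1, fun α hα => ?_⟩
          exact Nat.lt_succ_of_le (Finset.le_sup (f := fun α => (coeff α (H J)).natDegree) hα)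
        have h6 := hcoef D (fun β => scl (fun j => (g j)⁻¹) (cof β (H J))) ?_ (β J) ?_ y hy
        · rwa [eval_scl] at h6
        · intro z hz
          obtain ⟨h, hh⟩ := hVz z hz
          have h7 := hF2' J _ _ h _ hh
          rw [← eval_toH J.1 (F2 J) (z 0) (fun j => (g j)⁻¹ * tl2 z j),
            eval_spec _ _ _ D hDD] at h7
          rw [← h7]
          refine Finset.sum_congr rfl fun β _ => ?_
          rw [eval_scl]
        · by_contra hlt
          apply hβ J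
          ext α
          rw [coeff_cof, coeff_zero]
          by_cases hα : α ∈ (H J).support
          · exact Polynomial.coeff_eq_zero_of_natDegree_lt
              (lt_of_lt_of_le (hDD α hα) (not_lt.1 hlt))
          · rw [notMem_support_iff.1 hα, Polynomial.coeff_zero]
      · rw [hd']
        have h5 : m ≤ d' + Module.finrank ℤ M := by omega
        exact_mod_cast h5

end Pool.Agent.Y237.SA
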