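import Pool.Agent.Y237.SA.Ult

/-!
Maps between the groups of points of short Weierstrass curves (the construction of
`TH180.R4.Map`, for the curves `CV a b`). Helper file.
-/

set_option autoImplicit false
set_option linter.all false
set_option maxHeartbeats 1000000

open WeierstrassCurve WeierstrassCurve.Affine Pool.Agent.H901R3.MS

namespace Pool.Agent.Y237.SA

section maps

variable {F L : Type} [Field F] [Field L]

theorem negY_CV (A B x y : F) : (CV A B).toAffine.negY x y = -y := by simp [negY, CV]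

/-- `(x, y) ↦ (φ(x) c ^ 2, φ(y) c ^ 3)` preserves points -/
theorem map_ns (φ : F →+* L) {c : L} {A B : F} {A' B' : L} (hA : A' = c ^ 4 * φ A)
    (hB : B' = c ^ 6 * φ B) (h2 : (2 : L) ≠ 0) (hΔ : Disc A' B') {x y : F}
    (h : (CV A B).toAffine.Nonsingular x y) :
    (CV A' B').toAffine.Nonsingular (φ x * c ^ 2) (φ y * c ^ 3) := by
  rw [nonsingular_iff hΔ]
  have hE := congrArg φ (equation_iff.1 h.1)
  unfold Eqn at hE ⊢
  simp only [map_pow, map_add, map_mul] at hE
  rw [hA, hB]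
  linear_combination c ^ 6 * hE

open Classical in
/-- the map on points -/
noncomputable def gmap (φ : F →+* L) {c : L} (hc : c ≠ 0) {A B : F} {A' B' : L}
    (hA : A' = c ^ 4 * φ A) (hB : B' = c ^ 6 * φ B) (h2 : (2 : L) ≠ 0)
    (hΔ : Disc A' B') :
    (CV A B).toAffine.Point →+ (CV A' B').toAffine.Point where
  toFun P := match P with
    | .zero => 0
    | .some x y h => Point.some (φ x * c ^ 2) (φ y * c ^ 3) (map_ns φ hA hB h2 hΔ h)
  map_zero' := rfl
  map_add' := by
    intro P Q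
    rcases P with _ | ⟨x₁, y₁, h₁⟩
    · have e : (Point.zero : (CV A B).toAffine.Point) = 0 := rfl
      rw [e, zero_add]
      exact (zero_add _).symm
    rcases Q with _ | ⟨x₂, y₂, h₂⟩
    · have e : (Point.zero : (CV A B).toAffine.Point) = 0 := rfl
      rw [e, add_zero]
      exact (add_zero _).symm
    have hφ : Function.Injective φ := φ.injective
    have hc2 : c ^ 2 ≠ 0 := pow_ne_zero 2 hc
    have hc3 : c ^ 3 ≠ 0 := pow_ne_zero 3 hc
    have iffx : φ x₁ * c ^ 2 = φ x₂ * c ^ 2 ↔ x₁ = x₂ := by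
      constructor
      · intro h; exact hφ (mul_right_cancel₀ hc2 h)
      · rintro rfl; rfl
    have iffy : φ y₁ * c ^ 3 = (CV A' B').toAffine.negY (φ x₂ * c ^ 2) (φ y₂ * c ^ 3) ↔
        y₁ = (CV A B).toAffine.negY x₂ y₂ := by
      rw [negY_CV, negY_CV, ← neg_mul, ← map_neg]
      constructor
      · intro h; exact hφ (mul_right_cancel₀ hc3 h)
      · intro h; rw [h]
    by_cases hxy : x₁ = x₂ ∧ y₁ = (CV A B).toAffine.negY x₂ y₂
    · rw [Point.add_of_Y_eq hxy.1 hxy.2]
      have h3 := Point.add_of_Y_eq (W := (CV A' B').toAffine)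
        (h₁ := map_ns φ hA hB h2 hΔ h₁) (h₂ := map_ns φ hA hB h2 hΔ h₂)
        (iffx.2 hxy.1) (iffy.2 hxy.2)
      exact h3.symm
    · have hxy' : ¬ (φ x₁ * c ^ 2 = φ x₂ * c ^ 2 ∧
          φ y₁ * c ^ 3 = (CV A' B').toAffine.negY (φ x₂ * c ^ 2) (φ y₂ * c ^ 3)) := by
        rw [iffx, iffy]; exact hxy
      have hsl : (CV A' B').toAffine.slope (φ x₁ * c ^ 2) (φ x₂ * c ^ 2) (φ y₁ * c ^ 3)
          (φ y₂ * c ^ 3) = c * φ ((CV A B).toAffine.slope x₁ x₂ y₁ y₂) := by
        by_cases hx : x₁ = x₂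
        · have hy : y₁ ≠ (CV A B).toAffine.negY x₂ y₂ := fun h => hxy ⟨hx, h⟩
          rw [slope_of_Y_ne hx hy, slope_of_Y_ne (iffx.2 hx) (fun h => hy (iffy.1 h))]
          subst hx
          have hyy := Y_eq_of_Y_ne h₁.1 h₂.1 rfl hy
          rw [negY_CV, negY_CV]
          simp only [CV]
          rw [hA]
          have hn : φ y₁ * 2 ≠ 0 := by
            intro h0
            apply hy
            rw [negY_CV, ← hyy]
            have h5 : φ y₁ = 0 := (mul_eq_zero.1 h0).resolve_right h2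
            have h6 : y₁ = 0 := hφ (by rw [h5, map_zero])
            rw [h6, neg_zero]
          have hn1 : φ y₁ * c ^ 3 - -(φ y₁ * c ^ 3) ≠ 0 := by
            have : φ y₁ * c ^ 3 - -(φ y₁ * c ^ 3) = φ y₁ * 2 * c ^ 3 := by ring
            rw [this]; exact mul_ne_zero hn hc3
          simp only [map_div₀, map_add, map_sub, map_mul, map_pow, map_neg, map_ofNat, map_zero]
          have hn2 : φ y₁ - -φ y₁ ≠ 0 := by
            have : φ y₁ - -φ y₁ = φ y₁ * 2 := by ring
            rw [this]; exact hn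
          rw [mul_div_assoc', div_eq_div_iff hn1 hn2]
          ring
        · rw [slope_of_X_ne hx, slope_of_X_ne (fun h => hx (iffx.1 h)), map_div₀, map_sub, map_sub]
          have hn2 : φ x₁ - φ x₂ ≠ 0 := sub_ne_zero.2 (fun h => hx (hφ h))
          have hn1 : φ x₁ * c ^ 2 - φ x₂ * c ^ 2 ≠ 0 := by
            rw [← sub_mul]; exact mul_ne_zero hn2 hc2
          rw [mul_div_assoc', div_eq_div_iff hn1 hn2]
          ring
      have hsum : Point.some x₁ y₁ h₁ + Point.some x₂ y₂ h₂ =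
        Point.some _ _ (nonsingular_add h₁ h₂ hxy) := Point.add_some hxy
      have hsum' : Point.some _ _ (map_ns φ hA hB h2 hΔ h₁) +
          Point.some _ _ (map_ns φ hA hB h2 hΔ h₂) =
        Point.some _ _ (nonsingular_add (map_ns φ hA hB h2 hΔ h₁) (map_ns φ hA hB h2 hΔ h₂) hxy') :=
        Point.add_some hxy'
      rw [hsum]
      show Point.some _ _ _ = Point.some _ _ _ + Point.some _ _ _
      rw [hsum']
      have ex : φ ((CV A B).toAffine.addX x₁ x₂ ((CV A B).toAffine.slope x₁ x₂ y₁ y₂)) * c ^ 2 =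
          (CV A' B').toAffine.addX (φ x₁ * c ^ 2) (φ x₂ * c ^ 2)
            ((CV A' B').toAffine.slope (φ x₁ * c ^ 2) (φ x₂ * c ^ 2) (φ y₁ * c ^ 3)
            (φ y₂ * c ^ 3)) := by
        rw [hsl]
        simp only [addX, CV, map_add, map_sub, map_mul, map_pow, map_zero]
        ring
      have ey : φ ((CV A B).toAffine.addY x₁ x₂ y₁
            ((CV A B).toAffine.slope x₁ x₂ y₁ y₂)) * c ^ 3 =
          (CV A' B').toAffine.addY (φ x₁ * c ^ 2) (φ x₂ * c ^ 2) (φ y₁ * c ^ 3)
            ((CV A' B').toAffine.slope (φ x₁ * c ^ 2) (φ x₂ * c ^ 2) (φ y₁ * c ^ 3)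
            (φ y₂ * c ^ 3)) := by
        rw [hsl]
        simp only [addY, negAddY, addX, negY, CV, map_add, map_sub, map_mul, map_pow, map_neg,
          map_zero]
        ring
      simp only [ex, ey]

open Classical in
theorem gmap_some (φ : F →+* L) {c : L} (hc : c ≠ 0) {A B : F} {A' B' : L}
    (hA : A' = c ^ 4 * φ A) (hB : B' = c ^ 6 * φ B) (h2 : (2 : L) ≠ 0)
    (hΔ : Disc A' B') {x y : F} (h : (CV A B).toAffine.Nonsingular x y) :
    gmap φ hc hA hB h2 hΔ (Point.some x y h) =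
      Point.some (φ x * c ^ 2) (φ y * c ^ 3) (map_ns φ hA hB h2 hΔ h) := rfl

open Classical in
theorem gmap_inj (φ : F →+* L) {c : L} (hc : c ≠ 0) {A B : F} {A' B' : L}
    (hA : A' = c ^ 4 * φ A) (hB : B' = c ^ 6 * φ B) (h2 : (2 : L) ≠ 0)
    (hΔ : Disc A' B') : Function.Injective (gmap φ hc hA hB h2 hΔ) := by
  rw [injective_iff_map_eq_zero]
  intro P hP
  rcases P with _ | ⟨x, y, h⟩
  · rfl
  · rw [gmap_some] at hP
    exact absurd hP (by simp)

end maps

end Pool.Agent.Y237.SA
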