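import Pool.Agent.Y237.SA.Sep

/-!
# Extensions of an elliptic curve by a torus: torsion points have bounded coordinates

Helper file. `miller Q P P'` is the value at `Q` of the function with divisor
`(P) + (P') - (P + P') - (O)`, normalised at `O`. The extension of `E` by `G_m^k` with classes `Q_i`
has the group law `gmul`. The torus coordinates of its torsion points are bounded for every
nonarchimedean absolute value (`torsion_bound`), if no `Q_i ≠ O` is a torsion point.
-/

set_option autoImplicit false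
set_option linter.unusedSectionVars false

open WeierstrassCurve

namespace Pool.Agent.Y237.SA

open Pool.Agent.TH954 Pool.Agent.H901R3.MS Pool.Agent.W275.FM

variable {a b : ℂ} {k : ℕ}

open Classical in
/-- the value at `Q` of the normalised function with divisor `(P) + (P') - (P + P') - (O)` (and `1`
for `Q = O`) -/
noncomputable def miller (Q P P' : Pt a b) : ℂ :=
  match Q, P, P' with
  | .some X Y _, .some x y _, .some x' y' _ =>
    if x = x' ∧ y = (CV a b).toAffine.negY x' y' then X - x
    else (Y - y - (CV a b).toAffine.slope x x' y y' * (X - x)) /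
      (X - (CV a b).toAffine.addX x x' ((CV a b).toAffine.slope x x' y y'))
  | _, _, _ => 1

/-- the group law -/
noncomputable def gmul (Q : Fin k → Pt a b) (g h : Pt a b × (Fin k → ℂ)) :
    Pt a b × (Fin k → ℂ) :=
  (g.1 + h.1, fun i => g.2 i * h.2 i * miller (Q i) g.1 h.1)

/-- the powers -/
noncomputable def gpow (Q : Fin k → Pt a b) (g : Pt a b × (Fin k → ℂ)) : ℕ → Pt a b × (Fin k → ℂ)
  | 0 => (0, 1)
  | n + 1 => gmul Q g (gpow Q g n)

lemma gpow_eq (Q : Fin k → Pt a b) (g : Pt a b × (Fin k → ℂ)) (n : ℕ) :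
    gpow Q g n = (n • g.1, fun i => g.2 i ^ n * ∏ j ∈ Finset.range n, miller (Q i) g.1 (j • g.1)) := by
  induction n with
  | zero =>
    rw [gpow]
    refine Prod.ext (by simp) ?_
    funext i
    simp
  | succ n ih =>
    rw [gpow, ih, gmul]
    refine Prod.ext ?_ ?_
    · change g.1 + n • g.1 = (n + 1) • g.1
      rw [succ_nsmul']
    · funext i
      change g.2 i * (g.2 i ^ n * ∏ j ∈ Finset.range n, miller (Q i) g.1 (j • g.1)) *
        miller (Q i) g.1 (n • g.1) =
        g.2 i ^ (n + 1) * ∏ j ∈ Finset.range (n + 1), miller (Q i) g.1 (j • g.1)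
      rw [Finset.prod_range_succ]
      ring

/-- logarithms of bounded numbers -/
lemma abs_log_le {lo hi t : ℝ} (h0 : 0 < lo) (h1 : lo ≤ t) (h2 : t ≤ hi) :
    |Real.log t| ≤ |Real.log lo| + |Real.log hi| := by
  have h3 := Real.log_le_log h0 h1
  have h4 := Real.log_le_log (h0.trans_le h1) h2
  have h5 := neg_abs_le (Real.log lo)
  have h6 := le_abs_self (Real.log hi)
  have h7 := abs_nonneg (Real.log lo)
  have h8 := abs_nonneg (Real.log hi)
  rw [abs_le]
  constructor <;> linarith

/-- the product of the line and of its opposite -/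
lemma line_prod (X Y x y x' y' : ℂ) (hQ : Y ^ 2 = X ^ 3 + a * X + b)
    (n1 : (CV a b).toAffine.Nonsingular x y) (n2 : (CV a b).toAffine.Nonsingular x' y')
    (hne : ¬ (x = x' ∧ y = (CV a b).toAffine.negY x' y')) :
    (Y - y - (CV a b).toAffine.slope x x' y y' * (X - x)) *
      (Y + y + (CV a b).toAffine.slope x x' y y' * (X - x)) =
      (X - x) * (X - x') *
        (X - (CV a b).toAffine.addX x x' ((CV a b).toAffine.slope x x' y y')) := by
  have hW : Short (CV a b) := ⟨rfl, rfl, rfl⟩
  obtain ⟨c1, c2⟩ := line_rel hW n1 n2 hne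
  have e1 := hW.eqn n1
  have hX : (CV a b).toAffine.addX x x' ((CV a b).toAffine.slope x x' y y') =
      (CV a b).toAffine.slope x x' y y' ^ 2 - x - x' := by
    rw [Affine.addX, hW.h1, hW.h2]
    ring
  rw [hX]
  set l := (CV a b).toAffine.slope x x' y y'
  have h4 : (CV a b).a₄ = a := rfl
  have h6 : (CV a b).a₆ = b := rfl
  rw [h4] at c2 e1
  rw [h6] at e1
  linear_combination hQ + (x - X) * c2 + l * (X - x) * c1 - e1

/-- **Values of the cocycle at torsion points are bounded.** -/
theorem miller_bound (v : AbsoluteValue ℂ ℝ) (hv : IsNonarchimedean v)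
    (hD : 4 * a ^ 3 + 27 * b ^ 2 ≠ 0) (Q : Pt a b) (hQ : Q ≠ 0 → ∀ n : ℕ, 0 < n → n • Q ≠ 0) :
    ∃ B : ℝ, 0 ≤ B ∧ ∀ P P' : Pt a b, (∃ n : ℕ, 0 < n ∧ n • P = 0) →
      (∃ n : ℕ, 0 < n ∧ n • P' = 0) →
      miller Q P P' ≠ 0 ∧ |Real.log (v (miller Q P P'))| ≤ B := by
  obtain ⟨⟨C, hC⟩, hdis⟩ := discSet_TX v hv a b hD
  rcases Q with _ | ⟨X, Y, nQ⟩
  · refine ⟨0, le_rfl, fun P P' _ _ => ?_⟩
    have : miller (Affine.Point.zero : Pt a b) P P' = 1 := rfl
    rw [this]
    simp
  · obtain ⟨δ, hδ, hδ'⟩ := hdis X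
    have hQ' := hQ (Affine.Point.some_ne_zero nQ)
    have hW : Short (CV a b) := ⟨rfl, rfl, rfl⟩
    have hXQ : ∀ x ∈ TX a b, δ ≤ v (X - x) := by
      intro x hx
      have hne : x ≠ X := by
        rintro rfl
        obtain ⟨y, h, n, hn, hP⟩ := hx
        rcases sq_eq_sq_iff_eq_or_eq_neg.1 ((hW.eqn h).trans (hW.eqn nQ).symm) with h1 | h1
        · subst h1
          exact hQ' n hn hP
        · apply hQ' n hn
          have h2 : (Affine.Point.some x Y nQ : Pt a b) = -(Affine.Point.some x y h) := by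
            rw [hW.neg_some h]
            congr 1
            rw [h1, neg_neg]
          rw [h2, smul_neg, hP, neg_zero]
      have := hδ' x hx hne
      rwa [← v.map_neg, neg_sub] at this
    -- the constants
    have hC0 : ∀ x ∈ TX a b, 0 ≤ C := fun x hx => (v.nonneg x).trans (hC x hx)
    set C1 : ℝ := max (v X) C with hC1
    have hXC : ∀ x ∈ TX a b, v (X - x) ≤ C1 := by
      intro x hx
      have h1 := hv X (-x)
      rw [v.map_neg, ← sub_eq_add_neg] at h1
      exact h1.trans (max_le_max le_rfl (hC x hx))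
    set C2 : ℝ := max (C ^ 3) (max (v a * C) (v b)) with hC2
    have hy : ∀ x y : ℂ, x ∈ TX a b → (CV a b).toAffine.Nonsingular x y → v y ≤ C2 + 1 := by
      intro x y hx h
      have h1 : v y ^ 2 ≤ C2 := by
        have he : y ^ 2 = x ^ 3 + a * x + b := hW.eqn h
        rw [← map_pow, he]
        refine (hv _ _).trans (max_le ((hv _ _).trans (max_le ?_ ?_)) ?_)
        · rw [map_pow]
          exact (pow_le_pow_left₀ (v.nonneg _) (hC x hx) 3).trans (le_max_left _ _)
        · rw [map_mul]
          exact (mul_le_mul_of_nonneg_left (hC x hx) (v.nonneg _)).trans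
            ((le_max_left _ _).trans (le_max_right _ _))
        · exact (le_max_right _ _).trans (le_max_right _ _)
      nlinarith [v.nonneg y, sq_nonneg (v y - 1)]
    set C3 : ℝ := max (max (v Y) (C2 + 1)) ((C + 1) * C1) with hC3
    refine ⟨|Real.log (δ)| + |Real.log C1| + (|Real.log (δ ^ 3 / C3 / C1)| + |Real.log (C3 / δ)|),
      by positivity, ?_⟩
    intro P P' hP hP'
    have hB1 : |Real.log δ| + |Real.log C1| ≤
        |Real.log (δ)| + |Real.log C1| + (|Real.log (δ ^ 3 / C3 / C1)| + |Real.log (C3 / δ)|) :=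
      le_add_of_nonneg_right (by positivity)
    have hB2 : |Real.log (δ ^ 3 / C3 / C1)| + |Real.log (C3 / δ)| ≤
        |Real.log (δ)| + |Real.log C1| + (|Real.log (δ ^ 3 / C3 / C1)| + |Real.log (C3 / δ)|) :=
      le_add_of_nonneg_left (by positivity)
    have hone : ∀ t : ℂ, t = 1 → t ≠ 0 ∧ |Real.log (v t)| ≤
        |Real.log (δ)| + |Real.log C1| +
          (|Real.log (δ ^ 3 / C3 / C1)| + |Real.log (C3 / δ)|) := by
      rintro t rfl
      rw [map_one, Real.log_one, abs_zero]
      exact ⟨one_ne_zero, by positivity⟩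
    rcases P with _ | ⟨x, y, n1⟩
    · exact hone _ rfl
    rcases P' with _ | ⟨x', y', n2⟩
    · exact hone _ rfl
    have hx : x ∈ TX a b := by
      obtain ⟨n, hn, h⟩ := hP
      exact ⟨y, n1, n, hn, h⟩
    have hx' : x' ∈ TX a b := by
      obtain ⟨n, hn, h⟩ := hP'
      exact ⟨y', n2, n, hn, h⟩
    by_cases hne : x = x' ∧ y = (CV a b).toAffine.negY x' y'
    · have hm : miller (Affine.Point.some X Y nQ : Pt a b) (Affine.Point.some x y n1)
          (Affine.Point.some x' y' n2) = X - x := if_pos hne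
      rw [hm]
      have h1 := hXQ x hx
      have hpos : 0 < v (X - x) := hδ.trans_le h1
      exact ⟨v.pos_iff.1 hpos, (abs_log_le hδ h1 (hXC x hx)).trans hB1⟩
    · have hm : miller (Affine.Point.some X Y nQ : Pt a b) (Affine.Point.some x y n1)
          (Affine.Point.some x' y' n2) =
          (Y - y - (CV a b).toAffine.slope x x' y y' * (X - x)) /
      (X - (CV a b).toAffine.addX x x' ((CV a b).toAffine.slope x x' y y')) := if_neg hne
      rw [hm]
      have hlp := line_prod (a := a) (b := b) X Y x y x' y' (hW.eqn nQ) n1 n2 hne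
      have hsum : (Affine.Point.some x y n1 + Affine.Point.some x' y' n2 : Pt a b) =
        Affine.Point.some _ _ (Affine.nonsingular_add n1 n2 hne) := Affine.Point.add_some hne
      have hX3 : (CV a b).toAffine.addX x x' ((CV a b).toAffine.slope x x' y y') =
          (CV a b).toAffine.slope x x' y y' ^ 2 - x - x' := by
        rw [Affine.addX, hW.h1, hW.h2]
        ring
      set l := (CV a b).toAffine.slope x x' y y' with hl
      set x3 := (CV a b).toAffine.addX x x' l with hx3
      have hx3m : x3 ∈ TX a b := by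
        obtain ⟨n, hn, h⟩ := hP
        obtain ⟨n', hn', h'⟩ := hP'
        refine ⟨_, Affine.nonsingular_add n1 n2 hne, n * n', Nat.mul_pos hn hn', ?_⟩
        rw [← hsum, smul_add, mul_comm, mul_smul, h, smul_zero, mul_comm, mul_smul, h', smul_zero,
          add_zero]
      have hC1' : 0 < C1 := hδ.trans_le ((hXQ x hx).trans (hXC x hx))
      have hl2 : v l ≤ C + 1 := by
        have h1 : v l ^ 2 ≤ C := by
          have h2 : l ^ 2 = x3 + x + x' := by rw [hX3]; ring
          rw [← map_pow, h2]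
          exact (hv _ _).trans (max_le ((hv _ _).trans (max_le (hC _ hx3m) (hC _ hx))) (hC _ hx'))
        nlinarith [v.nonneg l, sq_nonneg (v l - 1)]
      have hlX : v (l * (X - x)) ≤ (C + 1) * C1 := by
        rw [map_mul]
        exact mul_le_mul hl2 (hXC x hx) (v.nonneg _) (by linarith [hC0 x hx])
      have hu : v (Y - y - l * (X - x)) ≤ C3 := by
        have h1 := hv (Y - y) (-(l * (X - x)))
        rw [v.map_neg, ← sub_eq_add_neg] at h1
        refine h1.trans (max_le_max ?_ hlX)
        have h2 := hv Y (-y)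
        rw [v.map_neg, ← sub_eq_add_neg] at h2
        exact h2.trans (max_le_max le_rfl (hy x y hx n1))
      have hu' : v (Y + y + l * (X - x)) ≤ C3 := by
        refine (hv _ _).trans (max_le_max ?_ hlX)
        exact (hv _ _).trans (max_le_max le_rfl (hy x y hx n1))
      have hprod : δ ^ 3 ≤ v (Y - y - l * (X - x)) * v (Y + y + l * (X - x)) := by
        rw [← map_mul, hlp, map_mul, map_mul]
        calc δ ^ 3 = δ * δ * δ := by ring
          _ ≤ v (X - x) * v (X - x') * v (X - x3) := by
            gcongr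
            · exact hXQ x hx
            · exact hXQ x' hx'
            · exact hXQ x3 hx3m
      have hC3' : 0 < C3 := by
        by_contra h0
        rw [not_lt] at h0
        have h1 : v (Y - y - l * (X - x)) = 0 := le_antisymm (hu.trans h0) (v.nonneg _)
        rw [h1, zero_mul] at hprod
        have : 0 < δ ^ 3 := by positivity
        linarith
      have hlow : δ ^ 3 / C3 ≤ v (Y - y - l * (X - x)) := by
        rw [div_le_iff₀ hC3']
        exact hprod.trans (mul_le_mul_of_nonneg_left hu' (v.nonneg _))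
      have hq1 := hXQ x3 hx3m
      have hq2 := hXC x3 hx3m
      have hq0 : 0 < v (X - x3) := hδ.trans_le hq1
      have hlow' : 0 < v (Y - y - l * (X - x)) := lt_of_lt_of_le (by positivity) hlow
      refine ⟨div_ne_zero (v.pos_iff.1 hlow') (v.pos_iff.1 hq0), ?_⟩
      refine le_trans ?_ hB2
      rw [map_div₀]
      refine abs_log_le (by positivity) ?_ ?_
      · exact div_le_div₀ (v.nonneg _) hlow hq0 hq2
      · exact div_le_div₀ hC3'.le hu hδ hq1

/-- **Torsion points have bounded torus coordinates.** -/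
theorem torsion_bound (v : AbsoluteValue ℂ ℝ) (hv : IsNonarchimedean v)
    (hD : 4 * a ^ 3 + 27 * b ^ 2 ≠ 0) (Q : Fin k → Pt a b)
    (hQ : ∀ i, Q i ≠ 0 → ∀ n : ℕ, 0 < n → n • Q i ≠ 0) :
    ∃ B : ℝ, 0 ≤ B ∧ ∀ (g : Pt a b × (Fin k → ℂ)) (n : ℕ), 0 < n → gpow Q g n = (0, 1) →
      n • g.1 = 0 ∧ ∀ i, g.2 i ≠ 0 ∧ |Real.log (v (g.2 i))| ≤ B := by
  choose B hB0 hB using fun i => miller_bound v hv hD (Q i) (hQ i)
  refine ⟨∑ i, B i, Finset.sum_nonneg fun i _ => hB0 i, fun g n hn hg => ?_⟩
  rw [gpow_eq] at hg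
  have h1 : n • g.1 = 0 := congrArg Prod.fst hg
  have h2 : ∀ i, g.2 i ^ n * ∏ j ∈ Finset.range n, miller (Q i) g.1 (j • g.1) = 1 := fun i =>
    congrFun (congrArg Prod.snd hg) i
  refine ⟨h1, fun i => ?_⟩
  have hg0 : g.2 i ≠ 0 := by
    intro h0
    have := h2 i
    rw [h0, zero_pow hn.ne', zero_mul] at this
    exact zero_ne_one this
  refine ⟨hg0, ?_⟩
  have h3 : ∀ j, miller (Q i) g.1 (j • g.1) ≠ 0 ∧
      |Real.log (v (miller (Q i) g.1 (j • g.1)))| ≤ B i := fun (j : ℕ) => by
    have h5 : n • (j • g.1) = 0 := by rw [smul_comm n j g.1, h1, smul_zero]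
    exact hB i _ _ ⟨n, hn, h1⟩ ⟨n, hn, h5⟩
  have h4 := congrArg (fun z => Real.log (v z)) (h2 i)
  simp only [map_mul, map_pow, map_prod, map_one, Real.log_one] at h4
  rw [Real.log_mul (pow_ne_zero _ (v.ne_zero hg0))
    (Finset.prod_ne_zero_iff.2 fun j _ => v.ne_zero (h3 j).1), Real.log_pow,
    Real.log_prod (fun j _ => v.ne_zero (h3 j).1)] at h4
  have h5 : |(n : ℝ) * Real.log (v (g.2 i))| ≤ n * B i := by
    have h6 : (n : ℝ) * Real.log (v (g.2 i)) =
        -∑ j ∈ Finset.range n, Real.log (v (miller (Q i) g.1 (j • g.1))) := by linarith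
    rw [h6, abs_neg]
    calc |∑ j ∈ Finset.range n, Real.log (v (miller (Q i) g.1 (j • g.1)))|
        ≤ ∑ j ∈ Finset.range n, |Real.log (v (miller (Q i) g.1 (j • g.1)))| :=
          Finset.abs_sum_le_sum_abs _ _
      _ ≤ ∑ _j ∈ Finset.range n, B i := Finset.sum_le_sum fun j _ => (h3 j).2
      _ = n * B i := by rw [Finset.sum_const, Finset.card_range, nsmul_eq_mul]
  rw [abs_mul, abs_of_nonneg (Nat.cast_nonneg n)] at h5
  have hn' : (0 : ℝ) < n := by exact_mod_cast hn
  exact (le_of_mul_le_mul_left h5 hn').trans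
    (Finset.single_le_sum (f := B) (fun i _ => hB0 i) (Finset.mem_univ i))

end Pool.Agent.Y237.SA
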