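import Pool.Agent.Y237.SA.Core

/-!
# Projection of an irreducible subset of `E × G_m^k` to the torus

Helper file.
-/

set_option autoImplicit false

namespace Pool.Agent.Y237.SA

open MvPolynomial
open Pool.Agent.Results.MP_b7926e_nt.NoAtypical (coset idealOf dim mem_idealOf)

variable {k : ℕ}

/-- the torus coordinates -/
def tl2 (z : Fin (k + 2) → ℂ) : Fin k → ℂ := fun j => z j.succ.succ

/-- Projection to the torus coordinates, if the second coordinate is algebraic over the first one. -/
theorem proj (A : Set (Fin (k + 2) → ℂ)) (hA : (idealOf A).IsPrime) (a b : ℂ)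
    (hE : ∀ z ∈ A, z 1 ^ 2 = z 0 ^ 3 + a * z 0 + b) :
    (idealOf (tl2 '' A)).IsPrime ∧ (dim A ≤ dim (tl2 '' A) ∨ (dim A ≤ dim (tl2 '' A) + 1 ∧
      ∀ (D : ℕ) (c : ℕ → MvPolynomial (Fin k) ℂ),
        (∀ z ∈ A, ∑ β ∈ Finset.range D, eval (tl2 z) (c β) * z 0 ^ β = 0) →
          ∀ β < D, ∀ y ∈ tl2 '' A, eval y (c β) = 0)) := by
  classical
  set Q := idealOf A with hQ
  let B := MvPolynomial (Fin (k + 2)) ℂ ⧸ Q
  let Ω := FractionRing B
  let ev : MvPolynomial (Fin (k + 2)) ℂ →ₐ[ℂ] Ω :=
    (IsScalarTower.toAlgHom ℂ B Ω).comp (Ideal.Quotient.mkₐ ℂ Q)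
  have hev : ∀ f, ev f = 0 ↔ f ∈ Q := by
    intro f
    change algebraMap B Ω (Ideal.Quotient.mk Q f) = 0 ↔ _
    rw [← Ideal.Quotient.eq_zero_iff_mem]
    exact map_eq_zero_iff _ (IsFractionRing.injective B Ω)
  set z : Fin (k + 2) → Ω := fun j => ev (X j) with hzdef
  have hevz : ∀ f, ev f = aeval z f := by
    intro f
    have h1 : ev = aeval z := by
      ext j
      simp [hzdef]
    rw [h1]
  let σ : Fin k → Fin (k + 2) := fun j => j.succ.succ
  set u : Fin k → Ω := fun j => z (σ j) with hu
  have hren : ∀ f : MvPolynomial (Fin k) ℂ, ev (rename σ f) = aeval u f := by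
    intro f
    rw [hevz, aeval_rename]
    rfl
  have hQ' : idealOf (tl2 '' A) = Q.comap (rename σ : MvPolynomial (Fin k) ℂ →ₐ[ℂ] _).toRingHom := by
    ext f
    rw [mem_idealOf, Ideal.mem_comap, hQ, mem_idealOf]
    constructor
    · intro h x hx
      have h1 := h _ ⟨x, hx, rfl⟩
      change eval x (rename σ f) = 0
      rw [eval_rename]
      exact h1
    · rintro h _ ⟨x, hx, rfl⟩
      have h1 := h x hx
      change eval x (rename σ f) = 0 at h1
      rw [eval_rename] at h1
      exact h1
  have hprime : (idealOf (tl2 '' A)).IsPrime := by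
    rw [hQ']
    exact Ideal.comap_isPrime _ _
  refine ⟨hprime, ?_⟩
  -- the coordinate ring of the projection
  let B' := MvPolynomial (Fin k) ℂ ⧸ idealOf (tl2 '' A)
  have hu0 : ∀ f : MvPolynomial (Fin k) ℂ, aeval u f = 0 ↔ f ∈ idealOf (tl2 '' A) := by
    intro f
    rw [← hren, hev, hQ']
    rfl
  let ψ : B' →ₐ[ℂ] Ω := Ideal.Quotient.liftₐ _ (aeval u) (fun f hf => (hu0 f).2 hf)
  have hcard : ∀ t : Set Ω, t ⊆ Set.range u → AlgebraicIndependent ℂ ((↑) : t → Ω) →
      Cardinal.mk t ≤ dim (tl2 '' A) := by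
    intro t ht hind
    have hc : ∀ e : t, ∃ j, u j = e := fun e => ht e.2
    choose c hc using hc
    let x' : t → B' := fun e => Ideal.Quotient.mk _ (X (c e))
    have h1 : ψ ∘ x' = ((↑) : t → Ω) := by
      funext e
      change ψ (Ideal.Quotient.mk _ (X (c e))) = e
      rw [← hc e]
      change aeval u (X (c e) : MvPolynomial (Fin k) ℂ) = _
      rw [aeval_X]
    have h2 : AlgebraicIndependent ℂ x' := by
      rw [← h1] at hind
      exact hind.of_comp ψ
    exact h2.cardinalMk_le_trdeg
  have hdimA : dim A ≤ Algebra.trdeg ℂ Ω :=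
    trdeg_le_of_injective (IsScalarTower.toAlgHom ℂ B Ω) (IsFractionRing.injective B Ω)
  -- the equation of the curve
  have hE' : z 1 ^ 2 = z 0 ^ 3 + algebraMap ℂ Ω a * z 0 + algebraMap ℂ Ω b := by
    have h1 : (X 1 ^ 2 - (X 0 ^ 3 + C a * X 0 + C b) : MvPolynomial (Fin (k + 2)) ℂ) ∈ Q := by
      rw [hQ, mem_idealOf]
      intro x hx
      simp only [map_sub, map_add, map_mul, map_pow, eval_X, eval_C]
      rw [hE x hx, sub_self]
    have h2 := (hev _).2 h1
    rw [hevz] at h2
    simp only [map_sub, map_add, map_mul, map_pow, aeval_X, aeval_C] at h2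
    exact sub_eq_zero.1 h2
  have halg : ∀ T : Set Ω, IsAlgebraic (Algebra.adjoin ℂ T) (z 0) → Set.range u ⊆ T →
      Algebra.IsAlgebraic (Algebra.adjoin ℂ T) Ω := by
    intro T h0 hT
    have hC : ∀ c : ℂ, IsAlgebraic (Algebra.adjoin ℂ T) (algebraMap ℂ Ω c) := fun c => by
      rw [IsScalarTower.algebraMap_apply ℂ (Algebra.adjoin ℂ T) Ω]
      exact isAlgebraic_algebraMap _
    have h1 : IsAlgebraic (Algebra.adjoin ℂ T) (z 1) := by
      refine IsAlgebraic.of_pow (n := 2) (by norm_num) ?_
      rw [hE']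
      exact ((h0.pow 3).add ((hC a).mul h0)).add (hC b)
    have hz : ∀ j, IsAlgebraic (Algebra.adjoin ℂ T) (z j) := by
      intro j
      refine Fin.cases h0 (fun j => ?_) j
      refine Fin.cases h1 (fun j => ?_) j
      have h2 : z j.succ.succ ∈ Algebra.adjoin ℂ T := Algebra.subset_adjoin (hT ⟨j, rfl⟩)
      exact isAlgebraic_algebraMap (⟨_, h2⟩ : Algebra.adjoin ℂ T)
    have hf : ∀ f : MvPolynomial (Fin (k + 2)) ℂ, IsAlgebraic (Algebra.adjoin ℂ T) (aeval z f) := by
      intro f
      induction f using MvPolynomial.induction_on with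
      | C c =>
        rw [aeval_C]
        exact hC c
      | add p q hp hq =>
        rw [map_add]
        exact hp.add hq
      | mul_X p j hp =>
        rw [map_mul, aeval_X]
        exact hp.mul (hz j)
    refine ⟨fun ω => ?_⟩
    obtain ⟨p, q, hq, rfl⟩ := IsFractionRing.div_surjective (A := B) ω
    obtain ⟨p, rfl⟩ := Ideal.Quotient.mk_surjective p
    obtain ⟨q, rfl⟩ := Ideal.Quotient.mk_surjective q
    rw [div_eq_mul_inv]
    have hp' : IsAlgebraic (Algebra.adjoin ℂ T) (algebraMap B Ω (Ideal.Quotient.mk Q p)) := by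
      have : algebraMap B Ω (Ideal.Quotient.mk Q p) = aeval z p := hevz p
      rw [this]
      exact hf p
    have hq' : IsAlgebraic (Algebra.adjoin ℂ T) (algebraMap B Ω (Ideal.Quotient.mk Q q)) := by
      have : algebraMap B Ω (Ideal.Quotient.mk Q q) = aeval z q := hevz q
      rw [this]
      exact hf q
    exact hp'.mul hq'.inv
  by_cases h0 : IsAlgebraic (Algebra.adjoin ℂ (Set.range u)) (z 0)
  · left
    have := halg _ h0 subset_rfl
    obtain ⟨t, ht, htb⟩ := exists_isTranscendenceBasis_subset (R := ℂ) (Set.range u)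
    calc dim A ≤ Algebra.trdeg ℂ Ω := hdimA
      _ = Cardinal.mk t := htb.cardinalMk_eq_trdeg.symm
      _ ≤ _ := hcard t ht htb.1
  · right
    constructor
    · have h1 : IsAlgebraic (Algebra.adjoin ℂ (insert (z 0) (Set.range u))) (z 0) := by
        have h2 : z 0 ∈ Algebra.adjoin ℂ (insert (z 0) (Set.range u)) :=
          Algebra.subset_adjoin (Set.mem_insert _ _)
        exact isAlgebraic_algebraMap (⟨_, h2⟩ : Algebra.adjoin ℂ (insert (z 0) (Set.range u)))
      have := halg _ h1 (Set.subset_insert _ _)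
      obtain ⟨t, ht, htb⟩ := exists_isTranscendenceBasis_subset (R := ℂ) (insert (z 0) (Set.range u))
      have h3 : t ⊆ insert (z 0) (t \ {z 0}) := by
        intro e he
        by_cases h : e = z 0
        · exact Set.mem_insert_iff.2 (Or.inl h)
        · exact Set.mem_insert_iff.2 (Or.inr ⟨he, h⟩)
      have h4 : (t \ {z 0}) ⊆ Set.range u := by
        rintro e ⟨he, hne⟩
        exact (Set.mem_insert_iff.1 (ht he)).resolve_left hne
      have h5 : AlgebraicIndependent ℂ ((↑) : (t \ {z 0} : Set Ω) → Ω) :=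
        htb.1.mono Set.sdiff_subset
      calc dim A ≤ Algebra.trdeg ℂ Ω := hdimA
        _ = Cardinal.mk t := htb.cardinalMk_eq_trdeg.symm
        _ ≤ Cardinal.mk (insert (z 0) (t \ {z 0}) : Set Ω) := Cardinal.mk_le_mk_of_subset h3
        _ ≤ Cardinal.mk (t \ {z 0} : Set Ω) + 1 := Cardinal.mk_insert_le
        _ ≤ _ := by gcongr; exact hcard _ h4 h5
    · intro D c hc β hβ y hy
      have hsum : ∑ β ∈ Finset.range D, aeval u (c β) * z 0 ^ β = 0 := by
        have h1 : (∑ β ∈ Finset.range D, rename σ (c β) * X 0 ^ β :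
            MvPolynomial (Fin (k + 2)) ℂ) ∈ Q := by
          rw [hQ, mem_idealOf]
          intro x hx
          rw [map_sum, ← hc x hx]
          refine Finset.sum_congr rfl fun β _ => ?_
          rw [map_mul, map_pow, eval_X, eval_rename]
          rfl
        have h2 := (hev _).2 h1
        rw [map_sum] at h2
        rw [← h2]
        refine Finset.sum_congr rfl fun β _ => ?_
        rw [map_mul, map_pow, hren]
      have hmem : ∀ β, aeval u (c β) ∈ Algebra.adjoin ℂ (Set.range u) := by
        intro β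
        rw [Algebra.adjoin_range_eq_range_aeval]
        exact ⟨c β, rfl⟩
      let p : Polynomial (Algebra.adjoin ℂ (Set.range u)) :=
        ∑ β ∈ Finset.range D, Polynomial.monomial β ⟨_, hmem β⟩
      have hp0 : Polynomial.aeval (z 0) p = 0 := by
        simp only [p, map_sum, Polynomial.aeval_monomial]
        exact hsum
      have hp : p = 0 := by
        by_contra hne
        exact h0 ⟨p, hne, hp0⟩
      have hcoef : p.coeff β = ⟨_, hmem β⟩ := by
        simp only [p, Polynomial.finsetSum_coeff, Polynomial.coeff_monomial]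
        rw [Finset.sum_eq_single β]
        · simp
        · intro j _ hj
          rw [if_neg hj]
        · intro h
          exact absurd (Finset.mem_range.2 hβ) h
      rw [hp, Polynomial.coeff_zero] at hcoef
      have h3 : aeval u (c β) = 0 := (congrArg Subtype.val hcoef).symm
      exact mem_idealOf.1 ((hu0 _).1 h3) y hy

end Pool.Agent.Y237.SA
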