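import Pool.Agent.Y237.SA.Proj
import Pool.Agent.Y237.SA.Mil

/-!
# Systems of relations

Helper file.
-/

set_option autoImplicit false

namespace Pool.Agent.Y237.SA

open MvPolynomial Pool.Agent.H173R3.ZT Pool.Agent.TH526.ZT
open Pool.Agent.Results.MP_b7926e_nt.NoAtypical (coset idealOf dim mem_idealOf)

/-! ### Values of polynomials on discrete sets -/

lemma lin_bound (v : AbsoluteValue ℂ ℝ) {S : Set ℂ} (hS : DiscSet v S) (z : ℂ) :
    ∃ B : ℝ, 0 ≤ B ∧ ∀ s ∈ S, s ≠ z → |Real.log (v (s - z))| ≤ B := by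
  obtain ⟨⟨C, hC⟩, h⟩ := hS
  obtain ⟨δ, hδ, h'⟩ := h z
  refine ⟨|Real.log δ| + |Real.log (C + v z)|, by positivity, fun s hs hsz => ?_⟩
  refine abs_log_le hδ (h' s hs hsz) ?_
  have h1 := v.add_le s (-z)
  rw [v.map_neg, ← sub_eq_add_neg] at h1
  exact h1.trans (add_le_add_left (hC s hs) _)

theorem poly_bound (v : AbsoluteValue ℂ ℝ) {S : Set ℂ} (hS : DiscSet v S) :
    ∀ (n : ℕ) (c : Polynomial ℂ), c.natDegree = n →
      ∃ B : ℝ, 0 ≤ B ∧ ∀ s ∈ S, c.eval s ≠ 0 → |Real.log (v (c.eval s))| ≤ B := by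
  intro n
  induction n with
  | zero =>
    intro c hc
    refine ⟨|Real.log (v (c.coeff 0))|, abs_nonneg _, fun s hs _ => ?_⟩
    rw [Polynomial.eq_C_of_natDegree_eq_zero hc, Polynomial.eval_C, Polynomial.coeff_C_zero]
  | succ n ih =>
    intro c hc
    have hc0 : c.degree ≠ 0 := by
      intro h
      have := Polynomial.natDegree_eq_zero_iff_degree_le_zero.2 h.le
      omega
    obtain ⟨z, hz⟩ := IsAlgClosed.exists_root c hc0
    obtain ⟨q, hq⟩ := Polynomial.dvd_iff_isRoot.2 hz
    have hcne : c ≠ 0 := by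
      rintro rfl
      simp at hc
    have hqne : q ≠ 0 := by
      rintro rfl
      rw [mul_zero] at hq
      exact hcne hq
    have hqd : q.natDegree = n := by
      have h1 := congrArg Polynomial.natDegree hq
      rw [Polynomial.natDegree_mul (Polynomial.X_sub_C_ne_zero z) hqne,
        Polynomial.natDegree_X_sub_C, hc] at h1
      omega
    obtain ⟨B1, hB1, h1⟩ := ih q hqd
    obtain ⟨B2, hB2, h2⟩ := lin_bound v hS z
    refine ⟨B2 + B1, by positivity, fun s hs hne => ?_⟩
    rw [hq, Polynomial.eval_mul, Polynomial.eval_sub, Polynomial.eval_X, Polynomial.eval_C] at hne ⊢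
    have h3 := left_ne_zero_of_mul hne
    have h4 := right_ne_zero_of_mul hne
    rw [map_mul, Real.log_mul (v.ne_zero h3) (v.ne_zero h4)]
    exact (abs_add_le _ _).trans (add_le_add (h2 s hs (sub_ne_zero.1 h3)) (h1 s hs h4))

/-! ### Specialisation of the polynomials with coefficients in `ℂ[x]` -/

variable {k : ℕ}

/-- specialisation of the coefficients at `x = s` -/
noncomputable def spec (s : ℂ) (H : MvPolynomial (Fin k) (Polynomial ℂ)) : MvPolynomial (Fin k) ℂ :=
  MvPolynomial.map (Polynomial.evalRingHom s) H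

lemma coeff_spec (s : ℂ) (H : MvPolynomial (Fin k) (Polynomial ℂ)) (α : Fin k →₀ ℕ) :
    coeff α (spec s H) = (coeff α H).eval s := by
  rw [spec, coeff_map]
  rfl

lemma support_spec (s : ℂ) (H : MvPolynomial (Fin k) (Polynomial ℂ)) :
    (spec s H).support ⊆ H.support := support_map_subset _ _

/-- the coefficient of `x ^ β` -/
noncomputable def cof (β : ℕ) (H : MvPolynomial (Fin k) (Polynomial ℂ)) : MvPolynomial (Fin k) ℂ :=
  ∑ α ∈ H.support, monomial α ((coeff α H).coeff β)

lemma coeff_cof (β : ℕ) (H : MvPolynomial (Fin k) (Polynomial ℂ)) (α : Fin k →₀ ℕ) :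
    coeff α (cof β H) = (coeff α H).coeff β := by
  classical
  rw [cof, coeff_sum]
  simp only [coeff_monomial]
  by_cases hα : α ∈ H.support
  · rw [Finset.sum_eq_single α]
    · simp
    · intro γ _ hγ
      rw [if_neg hγ]
    · intro h
      exact absurd hα h
  · rw [Finset.sum_eq_zero, notMem_support_iff.1 hα, Polynomial.coeff_zero]
    intro γ hγ
    rw [if_neg]
    rintro rfl
    exact hα hγ

lemma support_cof (β : ℕ) (H : MvPolynomial (Fin k) (Polynomial ℂ)) :
    (cof β H).support ⊆ H.support := by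
  intro α hα
  rw [mem_support_iff, coeff_cof] at hα
  rw [mem_support_iff]
  intro h
  rw [h, Polynomial.coeff_zero] at hα
  exact hα rfl

lemma exists_cof_ne_zero {H : MvPolynomial (Fin k) (Polynomial ℂ)} (hH : H ≠ 0) :
    ∃ β, cof β H ≠ 0 := by
  by_contra hcon
  push Not at hcon
  apply hH
  ext α β
  rw [← coeff_cof, hcon]
  simp

lemma eval_spec (s : ℂ) (H : MvPolynomial (Fin k) (Polynomial ℂ)) (u : Fin k → ℂ) (D : ℕ)
    (hD : ∀ α ∈ H.support, (coeff α H).natDegree < D) :
    eval u (spec s H) = ∑ β ∈ Finset.range D, eval u (cof β H) * s ^ β := by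
  have h1 : eval u (spec s H) = ∑ α ∈ H.support, (coeff α H).eval s * ∏ i, u i ^ α i := by
    rw [spec, eval_map, eval₂_eq']
    rfl
  rw [h1]
  have h2 : ∀ β, eval u (cof β H) = ∑ α ∈ H.support, (coeff α H).coeff β * ∏ i, u i ^ α i := by
    intro β
    rw [cof, map_sum]
    refine Finset.sum_congr rfl fun α _ => ?_
    rw [eval_monomial, Finsupp.prod_fintype _ _ (fun i => pow_zero _)]
  simp only [h2, Finset.sum_mul]
  rw [Finset.sum_comm]
  refine Finset.sum_congr rfl fun α hα => ?_
  rw [Polynomial.eval_eq_sum_range' (hD α hα), Finset.sum_mul]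
  refine Finset.sum_congr rfl fun β _ => ?_
  ring

/-- uniform bound for the error terms of the specialisations -/
lemma err_spec (v : AbsoluteValue ℂ ℝ) {S : Set ℂ} (hS : DiscSet v S)
    (H : MvPolynomial (Fin k) (Polynomial ℂ)) :
    ∃ ε : ℝ, ∀ s ∈ S, spec s H ≠ 0 → err v (spec s H) ≤ ε := by
  choose B hB0 hB using fun α : Fin k →₀ ℕ => poly_bound v hS _ (coeff α H) rfl
  refine ⟨∑ α ∈ H.support, B α + Real.log H.support.card, fun s hs hne => ?_⟩
  rw [err]
  refine add_le_add ?_ ?_
  · calc ∑ α ∈ (spec s H).support, |Real.log (v (coeff α (spec s H)))|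
        ≤ ∑ α ∈ (spec s H).support, B α := by
          refine Finset.sum_le_sum fun α hα => ?_
          rw [mem_support_iff, coeff_spec] at hα
          rw [coeff_spec]
          exact hB α s hs hα
      _ ≤ ∑ α ∈ H.support, B α :=
          Finset.sum_le_sum_of_subset_of_nonneg (support_spec s H) fun α _ _ => hB0 α
  · have h1 : (spec s H).support.Nonempty := by
      rw [Finset.nonempty_iff_ne_empty, Ne, MvPolynomial.support_eq_empty]
      exact hne
    refine Real.log_le_log (by exact_mod_cast Finset.card_pos.2 h1) ?_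
    exact_mod_cast Finset.card_le_card (support_spec s H)

/-- the values `s` for which the specialisation vanishes -/
lemma finite_spec_eq_zero {H : MvPolynomial (Fin k) (Polynomial ℂ)} (hH : H ≠ 0) :
    {s : ℂ | spec s H = 0}.Finite := by
  obtain ⟨α, hα⟩ := ne_zero_iff.1 hH
  refine (Polynomial.finite_setOfPred_isRoot hα).subset fun s hs => ?_
  change (coeff α H).eval s = 0
  change spec s H = 0 at hs
  rw [← coeff_spec, hs, coeff_zero]

/-! ### Relations in some of the variables -/

lemma supp_rename {R : Type} [CommSemiring R] (J : Finset (Fin k)) (F : MvPolynomial J R)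
    (α : Fin k →₀ ℕ) (hα : α ∈ (rename (Subtype.val : J → Fin k) F).support) (j : Fin k)
    (hj : j ∉ J) : α j = 0 := by
  classical
  rw [support_rename_of_injective Subtype.val_injective] at hα
  obtain ⟨β, -, rfl⟩ := Finset.mem_image.1 hα
  apply Finsupp.mapDomain_of_notMem_range
  rintro ⟨i, rfl⟩
  exact hj i.2

/-- the relation in `x` and `u_J`, as a polynomial in `u` with coefficients in `ℂ[x]` -/
noncomputable def toH (J : Finset (Fin k)) (F : MvPolynomial (Option J) ℂ) :
    MvPolynomial (Fin k) (Polynomial ℂ) :=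
  rename (Subtype.val : J → Fin k) (optionEquivRight ℂ J F)

lemma toH_ne_zero {J : Finset (Fin k)} {F : MvPolynomial (Option J) ℂ} (hF : F ≠ 0) :
    toH J F ≠ 0 := by
  intro h
  apply hF
  have h1 : optionEquivRight ℂ J F = 0 := by
    apply rename_injective _ Subtype.val_injective
    rw [map_zero]
    exact h
  exact (map_eq_zero_iff _ (optionEquivRight ℂ J).injective).1 h1

lemma eval_toH (J : Finset (Fin k)) (F : MvPolynomial (Option J) ℂ) (s : ℂ) (u : Fin k → ℂ) :
    eval u (spec s (toH J F)) = eval (fun o : Option J => o.elim s fun j => u j) F := by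
  rw [spec, toH, eval_map, eval₂_rename]
  have h : (eval₂Hom (Polynomial.evalRingHom s) (u ∘ (Subtype.val : J → Fin k))).comp
      (optionEquivRight ℂ J : MvPolynomial (Option J) ℂ →+* MvPolynomial J (Polynomial ℂ)) =
      eval (fun o : Option J => o.elim s fun j => u j) := by
    apply MvPolynomial.ringHom_ext
    · intro r
      simp
    · intro o
      cases o <;> simp
  exact DFunLike.congr_fun h F

end Pool.Agent.Y237.SA
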