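import Pool.Agent.TH954.NA
import Pool.Agent.W342.FM.AS

/-!
# Torsion points of an elliptic curve over a nonarchimedean field are discrete

`L` is a nonarchimedean normed field, `W : y² = x³ + a₄ x + a₆` with integral coefficients. The
parameter `x / y` is additive up to higher order near the origin, so the `x`-coordinates of the
torsion points are bounded (`torsion_le`) and they are discrete in `L` (`sep`). Helper file.
-/

set_option autoImplicit false
set_option linter.unusedSectionVars false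

open WeierstrassCurve

namespace Pool.Agent.Y237.SA

open Pool.Agent.TH954

/-- The chord-tangent relations for a sum. -/
lemma line_rel {L : Type} [Field L] [DecidableEq L] {W : WeierstrassCurve L} (hW : Short W) {x1 y1 x2 y2 : L} (n1 : W.toAffine.Nonsingular x1 y1)
    (n2 : W.toAffine.Nonsingular x2 y2) (hne : ¬ (x1 = x2 ∧ y1 = W.toAffine.negY x2 y2)) :
    W.toAffine.slope x1 x2 y1 y2 * (x1 - x2) = y1 - y2 ∧
    W.toAffine.slope x1 x2 y1 y2 * (y1 + y2) = x1 ^ 2 + x1 * x2 + x2 ^ 2 + W.a₄ := by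
  have e1 := hW.eqn n1
  have e2 := hW.eqn n2
  by_cases hx : x1 = x2
  · subst hx
    have hy' : y1 ≠ W.toAffine.negY x1 y2 := fun h => hne ⟨rfl, h⟩
    have hyy : y1 = y2 := Affine.Y_eq_of_Y_ne n1.1 n2.1 rfl hy'
    subst hyy
    have hn : y1 - -y1 ≠ 0 := by
      intro h0
      apply hy'
      rw [hW.negY]
      exact sub_eq_zero.1 h0
    rw [Affine.slope_of_Y_ne rfl hy', hW.negY, hW.h1, hW.h2]
    refine ⟨by ring, ?_⟩
    have : y1 + y1 = y1 - -y1 := by ring
    rw [this, div_mul_cancel₀ _ hn]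
    ring
  · have hD : x1 - x2 ≠ 0 := sub_ne_zero.mpr hx
    rw [Affine.slope_of_X_ne hx]
    refine ⟨div_mul_cancel₀ _ hD, ?_⟩
    rw [div_mul_eq_mul_div, div_eq_iff hD]
    linear_combination e1 - e2

section

variable {L : Type} [NormedField L] {W : WeierstrassCurve L}

/-- the parameter `x / y` -/
noncomputable def tt : W.toAffine.Point → L
  | .zero => 0
  | .some x y _ => x / y

end

variable {L : Type} [NormedField L] [IsUltrametricDist L] [DecidableEq L] {W : WeierstrassCurve L}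

lemma tt_zero : tt (0 : W.toAffine.Point) = 0 := rfl

lemma tt_add (hW : SI W) {R : ℝ} (hR : 1 < R) (h2 : (2 : L) ≠ 0) {P Q : W.toAffine.Point}
    (hP : Big R P) (hQ : Big R Q) :
    ‖tt (P + Q) - tt P - tt Q‖ ^ 2 * R ^ 2 ≤ 1 := by
  have hPQ := hW.big_add h2 hR hP hQ
  match P, Q with
  | .zero, Q =>
    have : (Affine.Point.zero : W.toAffine.Point) + Q = Q := zero_add Q
    rw [this]
    have h0 : tt Q - tt (Affine.Point.zero : W.toAffine.Point) - tt Q = 0 := by
      change tt Q - 0 - tt Q = 0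
      ring
    rw [h0, norm_zero]
    norm_num
  | .some x1 y1 n1, .zero =>
    have : Affine.Point.some x1 y1 n1 + (Affine.Point.zero : W.toAffine.Point) =
      Affine.Point.some x1 y1 n1 := add_zero _
    rw [this]
    have h0 : tt (Affine.Point.some x1 y1 n1) - tt (Affine.Point.some x1 y1 n1) -
        tt (Affine.Point.zero : W.toAffine.Point) = 0 := by
      change x1 / y1 - x1 / y1 - 0 = 0
      ring
    rw [h0, norm_zero]
    norm_num
  | .some x1 y1 n1, .some x2 y2 n2 =>
    have r1 := big_some.mp hP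
    have r2 := big_some.mp hQ
    have hy1 : y1 ≠ 0 := norm_pos_iff.mp (hW.norm_y_pos n1 (hR.trans_le r1))
    have hy2 : y2 ≠ 0 := norm_pos_iff.mp (hW.norm_y_pos n2 (hR.trans_le r2))
    by_cases hne : x1 = x2 ∧ y1 = W.toAffine.negY x2 y2
    · have h0 : Affine.Point.some x1 y1 n1 + Affine.Point.some x2 y2 n2 = 0 :=
        Affine.Point.add_of_Y_eq hne.1 hne.2
      rw [h0]
      have h1 : tt (0 : W.toAffine.Point) - tt (Affine.Point.some x1 y1 n1) -
          tt (Affine.Point.some x2 y2 n2) = 0 := by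
        change 0 - x1 / y1 - x2 / y2 = 0
        rw [hne.1, hne.2, hW.toShort.negY, div_neg]
        ring
      rw [h1, norm_zero]
      norm_num
    · obtain ⟨c1, c2⟩ := line_rel hW.toShort n1 n2 hne
      have hsum : Affine.Point.some x1 y1 n1 + Affine.Point.some x2 y2 n2 =
        Affine.Point.some _ _ (Affine.nonsingular_add n1 n2 hne) := Affine.Point.add_some hne
      set l := W.toAffine.slope x1 x2 y1 y2 with hl
      have e1 := hW.toShort.eqn n1
      have n3 := Affine.nonsingular_add n1 n2 hne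
      have hX : W.toAffine.addX x1 x2 l = l ^ 2 - x1 - x2 := by
        rw [Affine.addX, hW.h1, hW.h2]
        ring
      have hY : W.toAffine.addY x1 x2 y1 l = -(l * (l ^ 2 - x1 - x2 - x1) + y1) := by
        rw [Affine.addY, hW.toShort.negY, Affine.negAddY, hX]
      set x3 := W.toAffine.addX x1 x2 l with hx3
      set Y := W.toAffine.addY x1 x2 y1 l with hYd
      set nu := y1 - l * x1 with hnu
      have hy1' : y1 = l * x1 + nu := by rw [hnu]; ring
      have hy2' : y2 = l * x2 + nu := by rw [hnu]; linear_combination c1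
      have hY' : -Y = l * x3 + nu := by rw [hY, hX, hnu]; ring
      rw [hsum] at hPQ ⊢
      have r3 := big_some.mp hPQ
      have hY0 : Y ≠ 0 := norm_pos_iff.mp (hW.norm_y_pos n3 (hR.trans_le r3))
      -- elementary symmetric functions
      have s1 : l ^ 2 = x1 + x2 + x3 := by rw [hX]; ring
      have s2 : x1 * x2 + x1 * x3 + x2 * x3 = W.a₄ - 2 * l * nu := by
        rw [hX]
        linear_combination c2 - l * hy1' - l * hy2'
      have s3 : nu ^ 2 = W.a₆ + x1 * x2 * x3 := by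
        rw [hX]
        have h5 : l * x1 * (y1 + y2) - y1 ^ 2 + W.a₆ = x1 * x2 * (x1 + x2) := by
          linear_combination x1 * c2 - e1
        have h6 : nu ^ 2 = y1 * y2 - l * (x1 * y2 + x2 * y1) + l ^ 2 * x1 * x2 := by
          rw [hy1', hy2']; ring
        rw [h6]
        linear_combination (-1) * h5 + y1 * c1
      have hN : tt (Affine.Point.some x3 Y n3) - tt (Affine.Point.some x1 y1 n1) -
          tt (Affine.Point.some x2 y2 n2) =
          (l * (3 * W.a₆ * l - 2 * W.a₄ * nu)) / (y1 * y2 * (-Y)) := by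
        change x3 / Y - x1 / y1 - x2 / y2 = _
        have h7 : x1 * y2 * (-Y) + x2 * y1 * (-Y) + x3 * y1 * y2 =
            l * (2 * W.a₄ * nu - 3 * W.a₆ * l) := by
          rw [hY', hy1', hy2']
          have : x1 * (l * x2 + nu) * (l * x3 + nu) + x2 * (l * x1 + nu) * (l * x3 + nu) +
              x3 * (l * x1 + nu) * (l * x2 + nu) = 3 * l ^ 2 * (x1 * x2 * x3) +
              2 * l * nu * (x1 * x2 + x1 * x3 + x2 * x3) + nu ^ 2 * (x1 + x2 + x3) := by ring
          rw [this, ← s1, s2]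
          linear_combination (-3) * l ^ 2 * s3
        field_simp
        linear_combination h7
      rw [hN]
      -- the norms
      have hR0 : (0 : ℝ) < R := by linarith
      set S : ℝ := ‖x1‖ * ‖x2‖ * ‖x3‖ with hS
      have q1 : 0 < ‖x1‖ := hR0.trans_le r1
      have q2 : 0 < ‖x2‖ := hR0.trans_le r2
      have q3 : 0 < ‖x3‖ := hR0.trans_le r3
      have hS1 : ‖x1‖ * R ^ 2 ≤ S := by
        have : R ^ 2 ≤ ‖x2‖ * ‖x3‖ := by rw [sq]; exact mul_le_mul r2 r3 hR0.le q2.le
        calc ‖x1‖ * R ^ 2 ≤ ‖x1‖ * (‖x2‖ * ‖x3‖) := mul_le_mul_of_nonneg_left this q1.le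
          _ = S := by rw [hS]; ring
      have hS2 : ‖x2‖ * R ^ 2 ≤ S := by
        have : R ^ 2 ≤ ‖x1‖ * ‖x3‖ := by rw [sq]; exact mul_le_mul r1 r3 hR0.le q1.le
        calc ‖x2‖ * R ^ 2 ≤ ‖x2‖ * (‖x1‖ * ‖x3‖) := mul_le_mul_of_nonneg_left this q2.le
          _ = S := by rw [hS]; ring
      have hS3 : ‖x3‖ * R ^ 2 ≤ S := by
        have : R ^ 2 ≤ ‖x1‖ * ‖x2‖ := by rw [sq]; exact mul_le_mul r1 r2 hR0.le q1.le
        calc ‖x3‖ * R ^ 2 ≤ ‖x3‖ * (‖x1‖ * ‖x2‖) := mul_le_mul_of_nonneg_left this q3.le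
          _ = S := by rw [hS]; ring
      have hR2 : 1 < R ^ 2 := one_lt_pow₀ hR (by norm_num)
      have hS0 : 1 < S := by nlinarith
      have hl2 : ‖l‖ ^ 2 * R ^ 2 ≤ S := by
        rw [← norm_pow, s1]
        have h8 : ‖x1 + x2 + x3‖ ≤ S / R ^ 2 := by
          have hR2' : (0 : ℝ) < R ^ 2 := by positivity
          exact uadd (uadd ((le_div_iff₀ hR2').2 hS1) ((le_div_iff₀ hR2').2 hS2))
            ((le_div_iff₀ hR2').2 hS3)
        calc ‖x1 + x2 + x3‖ * R ^ 2 ≤ S / R ^ 2 * R ^ 2 :=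
              mul_le_mul_of_nonneg_right h8 (by positivity)
          _ = S := div_mul_cancel₀ _ (by positivity)
      have hl2' : ‖l‖ ^ 2 ≤ S := by nlinarith [sq_nonneg ‖l‖]
      have hnu2 : ‖nu‖ ^ 2 ≤ S := by
        rw [← norm_pow, s3]
        refine uadd (hW.hb.trans hS0.le) ?_
        rw [norm_mul, norm_mul]
      have hin : ‖3 * W.a₆ * l - 2 * W.a₄ * nu‖ ^ 2 ≤ S := by
        have h9 : ‖3 * W.a₆ * l - 2 * W.a₄ * nu‖ ≤ Real.sqrt S := by
          have hs : ‖l‖ ≤ Real.sqrt S := Real.le_sqrt_of_sq_le hl2'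
          have hs' : ‖nu‖ ≤ Real.sqrt S := Real.le_sqrt_of_sq_le hnu2
          refine usub ?_ ?_
          · rw [mul_assoc]
            exact umul u3 (umul hW.hb hs)
          · rw [mul_assoc]
            exact umul u2 (umul hW.ha hs')
        calc ‖3 * W.a₆ * l - 2 * W.a₄ * nu‖ ^ 2 ≤ Real.sqrt S ^ 2 :=
              pow_le_pow_left₀ (norm_nonneg _) h9 2
          _ = S := Real.sq_sqrt (by linarith)
      have hden : ‖y1 * y2 * (-Y)‖ ^ 2 = S ^ 3 := by
        rw [norm_mul, norm_mul, norm_neg, mul_pow, mul_pow, hW.norm_y_eq n1 (hR.trans_le r1),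
          hW.norm_y_eq n2 (hR.trans_le r2), hW.norm_y_eq n3 (hR.trans_le r3), hS]
        ring
      rw [norm_div, norm_mul, div_pow, mul_pow, hden, div_mul_eq_mul_div, div_le_one (by positivity)]
      calc ‖l‖ ^ 2 * ‖3 * W.a₆ * l - 2 * W.a₄ * nu‖ ^ 2 * R ^ 2
          = (‖l‖ ^ 2 * R ^ 2) * ‖3 * W.a₆ * l - 2 * W.a₄ * nu‖ ^ 2 := by ring
        _ ≤ S * S := mul_le_mul hl2 hin (by positivity) (by linarith)
        _ ≤ S ^ 3 := by nlinarith [mul_pos (show (0:ℝ) < S by linarith) (show (0:ℝ) < S by linarith)]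

/-- **Torsion points are bounded.** -/
theorem torsion_le (hW : SI W) (h2 : (2 : L) ≠ 0) {c : ℝ} (hc1 : 1 ≤ c)
    (hc : ∀ q : ℕ, q.Prime → 1 ≤ c * ‖(q : L)‖ ^ 2) {x y : L} (h : W.toAffine.Nonsingular x y)
    {n : ℕ} (hn : 0 < n) (hP : n • (Affine.Point.some x y h : W.toAffine.Point) = 0) :
    ‖x‖ ≤ c := by
  by_contra hcon
  rw [not_le] at hcon
  set P : W.toAffine.Point := Affine.Point.some x y h with hPdef
  have hP0 : P ≠ 0 := Affine.Point.some_ne_zero h
  have hfin : IsOfFinAddOrder P := isOfFinAddOrder_iff_nsmul_eq_zero.2 ⟨n, hn, hP⟩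
  have hd0 : 0 < addOrderOf P := hfin.addOrderOf_pos
  have hd1 : addOrderOf P ≠ 1 := fun h1 => hP0 (AddMonoid.addOrderOf_eq_one_iff.1 h1)
  obtain ⟨q, hq, hqd⟩ := Nat.exists_prime_and_dvd hd1
  obtain ⟨d', hd'⟩ := hqd
  have hd'0 : 0 < d' := by
    rcases Nat.eq_zero_or_pos d' with h0 | h0
    · rw [h0, mul_zero] at hd'
      omega
    · exact h0
  set P' := d' • P with hP'
  have hP'0 : P' ≠ 0 := by
    intro h0
    have h1 := addOrderOf_dvd_of_nsmul_eq_zero h0
    have h3 := Nat.le_of_dvd hd'0 h1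
    have h4 := hq.two_le
    rw [hd'] at h3
    nlinarith
  have hqP' : q • P' = 0 := by
    rw [hP', smul_smul, ← hd', addOrderOf_nsmul_eq_zero]
  have hx1 : 1 < ‖x‖ := lt_of_le_of_lt hc1 hcon
  have hBig : Big ‖x‖ P' := hW.big_nsmul h2 hx1 (big_some.2 le_rfl) d'
  match hP'' : P', hP'0, hBig with
  | .zero, h0, _ => exact absurd rfl h0
  | .some x' y' n', _, hB =>
    have hx' : ‖x‖ ≤ ‖x'‖ := big_some.1 hB
    have hR : 1 < ‖x'‖ := hx1.trans_le hx'
    have hBig' : Big ‖x'‖ (Affine.Point.some x' y' n') := big_some.2 le_rfl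
    have key : ∀ m : ℕ, ‖tt (m • (Affine.Point.some x' y' n' : W.toAffine.Point)) -
        m * (x' / y')‖ ^ 2 * ‖x'‖ ^ 2 ≤ 1 := by
      intro m
      induction m with
      | zero =>
        rw [zero_smul, tt_zero]
        simp
      | succ m ih =>
        have h3 := tt_add hW hR h2 (hW.big_nsmul h2 hR hBig' m) hBig'
        rw [succ_nsmul]
        have h4 : tt (m • (Affine.Point.some x' y' n' : W.toAffine.Point) +
            Affine.Point.some x' y' n') - ((m + 1 : ℕ) : L) * (x' / y') =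
            (tt (m • (Affine.Point.some x' y' n' : W.toAffine.Point) +
              Affine.Point.some x' y' n') - tt (m • (Affine.Point.some x' y' n' :
                W.toAffine.Point)) - tt (Affine.Point.some x' y' n')) +
            (tt (m • (Affine.Point.some x' y' n' : W.toAffine.Point)) - m * (x' / y')) := by
          have : tt (Affine.Point.some x' y' n') = x' / y' := rfl
          rw [this]
          push_cast
          ring
        rw [h4]
        set u := (tt (m • (Affine.Point.some x' y' n' : W.toAffine.Point) +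
              Affine.Point.some x' y' n') - tt (m • (Affine.Point.some x' y' n' :
                W.toAffine.Point)) - tt (Affine.Point.some x' y' n'))
        set w := (tt (m • (Affine.Point.some x' y' n' : W.toAffine.Point)) - m * (x' / y'))
        rcases le_total ‖u‖ ‖w‖ with h5 | h5
        · have h6 : ‖u + w‖ ≤ ‖w‖ := uadd h5 le_rfl
          calc ‖u + w‖ ^ 2 * ‖x'‖ ^ 2 ≤ ‖w‖ ^ 2 * ‖x'‖ ^ 2 := by gcongr
            _ ≤ 1 := ih
        · have h6 : ‖u + w‖ ≤ ‖u‖ := uadd le_rfl h5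
          calc ‖u + w‖ ^ 2 * ‖x'‖ ^ 2 ≤ ‖u‖ ^ 2 * ‖x'‖ ^ 2 := by gcongr
            _ ≤ 1 := h3
    have h3 := key q
    have hqP'' : q • (Affine.Point.some x' y' n' : W.toAffine.Point) = 0 := hqP'
    rw [hqP'', tt_zero, zero_sub, norm_neg, norm_mul, mul_pow] at h3
    have h4 := hW.norm_z n' hR
    have h5 := hc q hq
    have h6 : ‖(q : L)‖ ^ 2 * ‖x'‖ ≤ 1 := by
      calc ‖(q : L)‖ ^ 2 * ‖x'‖ = ‖(q : L)‖ ^ 2 * (‖x' / y'‖ ^ 2 * ‖x'‖) * ‖x'‖ := by
            rw [h4, mul_one]
        _ = ‖(q : L)‖ ^ 2 * ‖x' / y'‖ ^ 2 * ‖x'‖ ^ 2 := by ring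
        _ ≤ 1 := h3
    have h7 : 0 < ‖(q : L)‖ ^ 2 := by
      by_contra h8
      have h9 : ‖(q : L)‖ ^ 2 = 0 := le_antisymm (not_lt.1 h8) (sq_nonneg _)
      rw [h9, mul_zero] at h5
      norm_num at h5
    nlinarith

end Pool.Agent.Y237.SA
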